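import Mathlib

/-!
# Circular mixing threshold: definitions
-/

set_option autoImplicit false

namespace Pool.Agent.Helper37.CircMix

variable {V : Type*}

/-- `f` is a `(k, q)`-colouring of `G`: a map to `{0, ..., k - 1}` with
`q ≤ |f u - f v| ≤ k - q` for every edge `uv`. -/
def IsCol (G : SimpleGraph V) (k q : ℕ) (f : V → ℕ) : Prop :=
  (∀ v, f v < k) ∧ ∀ u v, G.Adj u v →
    (q : ℤ) ≤ |(f u : ℤ) - (f v : ℤ)| ∧ |(f u : ℤ) - (f v : ℤ)| ≤ (k : ℤ) - (q : ℤ)

/-- One recolouring step: two `(k, q)`-colourings that agree off a single vertex. -/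
def Step (G : SimpleGraph V) (k q : ℕ) (f g : V → ℕ) : Prop :=
  IsCol G k q f ∧ IsCol G k q g ∧ ∃ v, ∀ w, w ≠ v → f w = g w

/-- `G` is `(k, q)`-mixing: any `(k, q)`-colouring can be transformed into any other by a finite
sequence of recolouring steps. -/
def Mixing (G : SimpleGraph V) (k q : ℕ) : Prop :=
  ∀ f g : V → ℕ, IsCol G k q f → IsCol G k q g → Relation.ReflTransGen (Step G k q) f g

/-- The circular chromatic number: the infimum of `k / q` over all `(k, q)` for which `G` has a
`(k, q)`-colouring. -/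
noncomputable def circularChromaticNumber (G : SimpleGraph V) : ℝ :=
  sInf {x : ℝ | ∃ k q : ℕ, 0 < k ∧ 0 < q ∧ x = (k : ℝ) / (q : ℝ) ∧ ∃ f, IsCol G k q f}

/-- The circular mixing threshold: the infimum of the rationals `l` such that `G` is
`(k, q)`-mixing for all positive integers `k, q` with `k / q ≥ l`. -/
noncomputable def circularMixingThreshold (G : SimpleGraph V) : ℝ :=
  sInf {x : ℝ | ∃ l : ℚ, x = (l : ℝ) ∧
    ∀ k q : ℕ, 0 < k → 0 < q → (l : ℝ) ≤ (k : ℝ) / (q : ℝ) → Mixing G k q}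

end Pool.Agent.Helper37.CircMix
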