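import Mathlib
import Pool.Agent.Helper37.CircMix.Defs

/-!
# Reduction of `(k, q)`-colourings to ordinary colourings
-/

set_option autoImplicit false

namespace Pool.Agent.Helper37.CircMix

open Relation

variable {V : Type*}

/-- compatibility of two colours -/
def ok (k q a b : ℕ) : Prop := (a + q ≤ b ∧ b + q ≤ k + a) ∨ (b + q ≤ a ∧ a + q ≤ k + b)

lemma ok_iff (k q a b : ℕ) (hq : 0 < q) :
    ((q : ℤ) ≤ |(a : ℤ) - (b : ℤ)| ∧ |(a : ℤ) - (b : ℤ)| ≤ (k : ℤ) - (q : ℤ)) ↔ ok k q a b := by
  unfold ok
  rcases le_total (a : ℤ) b with h | h
  · rw [abs_of_nonpos (by linarith)]; omega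
  · rw [abs_of_nonneg (by linarith)]; omega

lemma isCol_iff (G : SimpleGraph V) (k q : ℕ) (hq : 0 < q) (f : V → ℕ) :
    IsCol G k q f ↔ (∀ v, f v < k) ∧ ∀ u v, G.Adj u v → ok k q (f u) (f v) := by
  unfold IsCol
  constructor
  · rintro ⟨h1, h2⟩
    exact ⟨h1, fun u v huv => (ok_iff k q _ _ hq).1 (h2 u v huv)⟩
  · rintro ⟨h1, h2⟩
    exact ⟨h1, fun u v huv => (ok_iff k q _ _ hq).2 (h2 u v huv)⟩

lemma ok_symm {k q a b : ℕ} (h : ok k q a b) : ok k q b a := by unfold ok at *; omega

/-- reachability -/
abbrev Reach (G : SimpleGraph V) (k q : ℕ) : (V → ℕ) → (V → ℕ) → Prop :=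
  ReflTransGen (Step G k q)

lemma Step.symm {G : SimpleGraph V} {k q : ℕ} {f g : V → ℕ} (h : Step G k q f g) :
    Step G k q g f := by
  obtain ⟨h1, h2, v, hv⟩ := h
  exact ⟨h2, h1, v, fun w hw => (hv w hw).symm⟩

lemma Reach.symm {G : SimpleGraph V} {k q : ℕ} {f g : V → ℕ} (h : Reach G k q f g) :
    Reach G k q g f := by
  induction h with
  | refl => exact ReflTransGen.refl
  | tail _ hbc ih => exact ReflTransGen.head hbc.symm ih

/-- transport of reachability along a map of colour functions -/
lemma Reach.map {W : Type*} {G : SimpleGraph V} {G' : SimpleGraph W} {k q k' q' : ℕ}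
    (F : (V → ℕ) → (W → ℕ)) (hF : ∀ f g, Step G k q f g → Step G' k' q' (F f) (F g))
    {f g : V → ℕ} (h : Reach G k q f g) : Reach G' k' q' (F f) (F g) := by
  induction h with
  | refl => exact ReflTransGen.refl
  | tail _ hbc ih => exact ReflTransGen.tail ih (hF _ _ hbc)

section Shift

variable {G : SimpleGraph V} {k q m : ℕ}

/-- the colouring with classes `x + q i` -/
def phi (k q x : ℕ) (g : V → ℕ) : V → ℕ := fun v => (x + q * g v) % k

lemma ok_mod (hq : 0 < q) (x a b : ℕ) (h : a + q ≤ b) (hb : b + q ≤ k + a) (hbk : b < k)
    (hx : x < k) : ok k q ((x + a) % k) ((x + b) % k) := by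
  have ha : a < k := by omega
  have h1 : (x + a) % k = if x + a < k then x + a else x + a - k := by
    split_ifs with h'
    · exact Nat.mod_eq_of_lt h'
    · rw [Nat.mod_eq_sub_mod (by omega)]; exact Nat.mod_eq_of_lt (by omega)
  have h2 : (x + b) % k = if x + b < k then x + b else x + b - k := by
    split_ifs with h'
    · exact Nat.mod_eq_of_lt h'
    · rw [Nat.mod_eq_sub_mod (by omega)]; exact Nat.mod_eq_of_lt (by omega)
  rw [h1, h2]
  unfold ok
  split_ifs <;> omega

lemma ok_mod' (hq : 0 < q) (x a b : ℕ) (h : ok k q a b) (ha : a < k) (hb : b < k)
    (hx : x < k) : ok k q ((x + a) % k) ((x + b) % k) := by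
  rcases h with h | h
  · exact ok_mod hq x a b h.1 h.2 hb hx
  · exact ok_symm (ok_mod hq x b a h.1 h.2 ha hx)

/-- rotation -/
def rot (k x : ℕ) (f : V → ℕ) : V → ℕ := fun v => (x + f v) % k

lemma rot_isCol (hq : 0 < q) (x : ℕ) (hx : x < k) (f : V → ℕ) (hf : IsCol G k q f) :
    IsCol G k q (rot k x f) := by
  rw [isCol_iff G k q hq] at hf ⊢
  refine ⟨fun v => Nat.mod_lt _ (by omega), fun u v huv => ?_⟩
  exact ok_mod' hq x _ _ (hf.2 u v huv) (hf.1 u) (hf.1 v) hx

lemma rot_step (hq : 0 < q) (x : ℕ) (hx : x < k) (f g : V → ℕ) (h : Step G k q f g) :
    Step G k q (rot k x f) (rot k x g) := by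
  obtain ⟨h1, h2, v, hv⟩ := h
  exact ⟨rot_isCol hq x hx f h1, rot_isCol hq x hx g h2, v, fun w hw => by
    simp only [rot, hv w hw]⟩

lemma rot_reach (hq : 0 < q) (x : ℕ) (hx : x < k) {f g : V → ℕ} (h : Reach G k q f g) :
    Reach G k q (rot k x f) (rot k x g) :=
  h.map (rot k x) (rot_step hq x hx)

lemma phi_isCol (hq : 0 < q) (hm : m * q ≤ k) (x : ℕ) (hx : x < k) (g : V → ℕ)
    (hg : IsCol G m 1 g) : IsCol G k q (phi k q x g) := by
  rw [isCol_iff G m 1 one_pos] at hg
  rw [isCol_iff G k q hq]
  refine ⟨fun v => Nat.mod_lt _ (by omega), fun u v huv => ?_⟩
  have h1 := hg.1 u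
  have h2 := hg.1 v
  have h3 := hg.2 u v huv
  have key : ∀ a b : ℕ, a < m → b < m → ok m 1 a b → ok k q (q * a) (q * b) := by
    intro a b ha hb hab
    rcases hab with ⟨h, h'⟩ | ⟨h, h'⟩
    · left
      constructor
      · calc q * a + q = q * (a + 1) := by ring
          _ ≤ q * b := Nat.mul_le_mul_left q h
      · calc q * b + q = q * (b + 1) := by ring
          _ ≤ q * m := Nat.mul_le_mul_left q hb
          _ ≤ k + q * a := by rw [mul_comm]; omega
    · right
      constructor
      · calc q * b + q = q * (b + 1) := by ring
          _ ≤ q * a := Nat.mul_le_mul_left q h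
      · calc q * a + q = q * (a + 1) := by ring
          _ ≤ q * m := Nat.mul_le_mul_left q ha
          _ ≤ k + q * b := by rw [mul_comm]; omega
  have hlt : ∀ a : ℕ, a < m → q * a < k := by
    intro a ha
    calc q * a < q * m := Nat.mul_lt_mul_of_pos_left ha hq
      _ ≤ k := by rw [mul_comm]; exact hm
  exact ok_mod' hq x _ _ (key _ _ h1 h2 h3) (hlt _ h1) (hlt _ h2) hx

lemma phi_step (hq : 0 < q) (hm : m * q ≤ k) (x : ℕ) (hx : x < k) (f g : V → ℕ)
    (h : Step G m 1 f g) : Step G k q (phi k q x f) (phi k q x g) := by
  obtain ⟨h1, h2, v, hv⟩ := h
  exact ⟨phi_isCol hq hm x hx f h1, phi_isCol hq hm x hx g h2, v, fun w hw => by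
    simp only [phi, hv w hw]⟩

lemma phi_reach (hq : 0 < q) (hm : m * q ≤ k) (x : ℕ) (hx : x < k) {f g : V → ℕ}
    (h : Reach G m 1 f g) : Reach G k q (phi k q x f) (phi k q x g) :=
  h.map (phi k q x) (phi_step hq hm x hx)

end Shift

section Raise

variable {G : SimpleGraph V} {k q : ℕ} [Fintype V] [DecidableEq V]

/-- raising lemma -/
lemma raise (hq : 0 < q) (f' : V → ℕ) (hf' : IsCol G k q f') :
    ∀ (n : ℕ) (f : V → ℕ), IsCol G k q f → (∀ v, f v ≤ f' v) → (∀ v, f v ≠ f' v → f' v + q ≤ k) →
      (Finset.univ.filter (fun v => f v ≠ f' v)).card = n → Reach G k q f f' := by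
  intro n
  induction n with
  | zero =>
    intro f _ _ _ hn
    have : f = f' := by
      funext v
      by_contra hne
      have : v ∈ Finset.univ.filter (fun v => f v ≠ f' v) := by simpa using hne
      rw [Finset.card_eq_zero] at hn
      rw [hn] at this
      simp at this
    rw [this]
  | succ n ih =>
    intro f hf hle htop hn
    obtain ⟨v, hv, hmax⟩ := Finset.exists_max_image (Finset.univ.filter (fun v => f v ≠ f' v)) f
      (Finset.card_pos.1 (by omega))
    have hvne : f v ≠ f' v := by simpa using hv
    set h : V → ℕ := Function.update f v (f' v) with hh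
    have hhv : h v = f' v := by simp [hh]
    have hhw : ∀ w, w ≠ v → h w = f w := fun w hw => by simp [hh, hw]
    have hfc := (isCol_iff G k q hq f).1 hf
    have hfc' := (isCol_iff G k q hq f').1 hf'
    have hpair : ∀ w, G.Adj v w → ok k q (f' v) (f w) := by
      intro w hvw
      have h1 := hfc.2 v w hvw
      have h2 := hfc'.2 v w hvw
      have h3 := hle v
      have h4 := htop v hvne
      by_cases hw : f w = f' w
      · rw [hw]; exact h2
      · have h5 : f w ≤ f v := hmax w (by simpa using hw)
        unfold ok at *
        omega
    have hcol : IsCol G k q h := by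
      rw [isCol_iff G k q hq]
      constructor
      · intro w
        by_cases hw : w = v
        · rw [hw, hhv]; exact hfc'.1 v
        · rw [hhw w hw]; exact hfc.1 w
      · intro a b hab
        by_cases ha : a = v
        · have hb : b ≠ v := by rintro rfl; exact hab.ne ha
          rw [ha, hhv, hhw b hb]
          exact hpair b (ha ▸ hab)
        · by_cases hb : b = v
          · rw [hb, hhv, hhw a ha]
            exact ok_symm (hpair a (hb ▸ hab.symm))
          · rw [hhw a ha, hhw b hb]; exact hfc.2 a b hab
    have hstep : Step G k q f h := ⟨hf, hcol, v, fun w hw => (hhw w hw).symm⟩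
    refine ReflTransGen.head hstep (ih h hcol ?_ ?_ ?_)
    · intro w
      by_cases hw : w = v
      · rw [hw, hhv]
      · rw [hhw w hw]; exact hle w
    · intro w hw'
      by_cases hw : w = v
      · rw [hw, hhv] at hw'; exact absurd rfl hw'
      · rw [hhw w hw] at hw'; exact htop w hw'
    · have : Finset.univ.filter (fun w => h w ≠ f' w)
          = (Finset.univ.filter (fun w => f w ≠ f' w)).erase v := by
        ext w
        simp only [Finset.mem_filter, Finset.mem_univ, true_and, Finset.mem_erase]
        by_cases hw : w = v
        · rw [hw, hhv]; simp
        · rw [hhw w hw]; simp [hw]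
      rw [this, Finset.card_erase_of_mem hv, hn]
      rfl

lemma raise' (hq : 0 < q) (f f' : V → ℕ) (hf : IsCol G k q f) (hf' : IsCol G k q f')
    (hle : ∀ v, f v ≤ f' v) (htop : ∀ v, f v ≠ f' v → f' v + q ≤ k) : Reach G k q f f' :=
  raise hq f' hf' _ f hf hle htop rfl

end Raise

section Main

variable {G : SimpleGraph V} {k q m : ℕ} [Fintype V] [DecidableEq V]

lemma count_top (k q a : ℕ) (hq : q ≤ k) (ha : a < k) :
    ((Finset.range k).filter (fun x => k - q ≤ (x + a) % k)).card = q := by
  have h1 : ((Finset.range k).filter (fun x => k - q ≤ (x + a) % k)).card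
      = (Finset.Ico (k - q) k).card := by
    apply Finset.card_nbij' (fun x => (x + a) % k) (fun y => (y + (k - a)) % k)
    · intro x hx
      simp only [Finset.coe_filter, Finset.mem_range, Set.mem_ofPred_eq] at hx
      simp only [Finset.coe_Ico, Set.mem_Ico]
      exact ⟨hx.2, Nat.mod_lt _ (by omega)⟩
    · intro y hy
      simp only [Finset.coe_Ico, Set.mem_Ico] at hy
      simp only [Finset.coe_filter, Finset.mem_range, Set.mem_ofPred_eq]
      refine ⟨Nat.mod_lt _ (by omega), ?_⟩
      rw [Nat.mod_add_mod]
      have : y + (k - a) + a = y + k := by omega
      rw [this, Nat.add_mod_right, Nat.mod_eq_of_lt hy.2]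
      exact hy.1
    · intro x hx
      simp only [Finset.coe_filter, Finset.mem_range, Set.mem_ofPred_eq] at hx
      change ((x + a) % k + (k - a)) % k = x
      rw [Nat.mod_add_mod]
      have : x + a + (k - a) = x + k := by omega
      rw [this, Nat.add_mod_right, Nat.mod_eq_of_lt hx.1]
    · intro y hy
      simp only [Finset.coe_Ico, Set.mem_Ico] at hy
      change ((y + (k - a)) % k + a) % k = y
      rw [Nat.mod_add_mod]
      have : y + (k - a) + a = y + k := by omega
      rw [this, Nat.add_mod_right, Nat.mod_eq_of_lt hy.2]
  rw [h1, Nat.card_Ico]
  omega

/-- there is a rotation with at most one vertex in the top block -/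
lemma exists_rot (hq : q ≤ k) (hn : Fintype.card V * q < 2 * k) (f : V → ℕ) (hf : ∀ v, f v < k) :
    ∃ x < k, ∀ u v, k - q ≤ rot k x f u → k - q ≤ rot k x f v → u = v := by
  by_contra hcon
  push Not at hcon
  have h1 : ∀ x ∈ Finset.range k, 2 ≤ (Finset.univ.filter (fun v => k - q ≤ rot k x f v)).card := by
    intro x hx
    obtain ⟨u, v, hu, hv, huv⟩ := hcon x (Finset.mem_range.1 hx)
    have : ({u, v} : Finset V) ⊆ Finset.univ.filter (fun v => k - q ≤ rot k x f v) := by
      intro w hw
      simp only [Finset.mem_insert, Finset.mem_singleton] at hw
      simp only [Finset.mem_filter, Finset.mem_univ, true_and]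
      rcases hw with rfl | rfl <;> assumption
    calc 2 = ({u, v} : Finset V).card := (Finset.card_pair huv).symm
      _ ≤ _ := Finset.card_le_card this
  have h2 : 2 * k ≤ ∑ x ∈ Finset.range k, (Finset.univ.filter (fun v => k - q ≤ rot k x f v)).card := by
    calc 2 * k = ∑ _x ∈ Finset.range k, 2 := by simp [mul_comm]
      _ ≤ _ := Finset.sum_le_sum h1
  have h3 : ∑ x ∈ Finset.range k, (Finset.univ.filter (fun v => k - q ≤ rot k x f v)).card
      = Fintype.card V * q := by
    simp only [Finset.card_filter]
    rw [Finset.sum_comm]
    have : ∀ v : V, ∑ x ∈ Finset.range k, (if k - q ≤ rot k x f v then 1 else 0) = q := by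
      intro v
      rw [← Finset.card_filter]
      exact count_top k q (f v) hq (hf v)
    simp only [this]
    simp
  omega

/-- stuck colourings -/
lemma stuck (hq : 0 < q) (f : V → ℕ) (hf : IsCol G k q f) (v : V) (hv : 0 < f v)
    (h : ¬ IsCol G k q (Function.update f v (f v - 1))) :
    ∃ w, G.Adj v w ∧ (f v = f w + q ∨ f w = f v + (k - q)) := by
  have hfc := (isCol_iff G k q hq f).1 hf
  by_contra hcon
  push Not at hcon
  apply h
  rw [isCol_iff G k q hq]
  have hpair : ∀ w, G.Adj v w → ok k q (f v - 1) (f w) := by
    intro w hvw
    have h1 := hfc.2 v w hvw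
    have h2 := hcon w hvw
    have h3 := hfc.1 v
    have h4 := hfc.1 w
    unfold ok at *
    omega
  constructor
  · intro w
    by_cases hw : w = v
    · rw [hw, Function.update_self]; have := hfc.1 v; omega
    · rw [Function.update_of_ne hw]; exact hfc.1 w
  · intro a b hab
    by_cases ha : a = v
    · have hb : b ≠ v := by rintro rfl; exact hab.ne ha
      rw [ha, Function.update_self, Function.update_of_ne hb]
      exact hpair b (ha ▸ hab)
    · by_cases hb : b = v
      · rw [hb, Function.update_self, Function.update_of_ne ha]
        exact ok_symm (hpair a (hb ▸ hab.symm))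
      · rw [Function.update_of_ne ha, Function.update_of_ne hb]; exact hfc.2 a b hab

/-- the target of the reduction -/
def Good (G : SimpleGraph V) (k q m : ℕ) (f : V → ℕ) : Prop :=
  ∃ (x : ℕ) (g : V → ℕ), x < k ∧ IsCol G m 1 g ∧ Reach G k q f (phi k q x g)

omit [Fintype V] [DecidableEq V] in
lemma isCol_one (g : V → ℕ) (hlt : ∀ v, g v < m) (hne : ∀ u v, G.Adj u v → g u ≠ g v) :
    IsCol G m 1 g := by
  rw [isCol_iff G m 1 one_pos]
  refine ⟨hlt, fun u v huv => ?_⟩
  have h2 := hlt u
  have h3 := hlt v
  have h4 := hne u v huv
  unfold ok
  omega

omit [Fintype V] [DecidableEq V] in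
lemma phi_eq (f : V → ℕ) (hfk : ∀ v, f v < k) (g : V → ℕ) (δ : ℕ)
    (hfg : ∀ v, f v = δ + q * g v) : phi k q δ g = f := by
  funext v
  simp only [phi]
  rw [← hfg v]
  exact Nat.mod_eq_of_lt (hfk v)

lemma reduce_aux (hq : 0 < q) (hqk : q ≤ k) (hm1 : m * q ≤ k) (hm2 : k < (m + 1) * q)
    (hn : Fintype.card V + 1 ≤ 2 * m) :
    ∀ (N : ℕ) (f : V → ℕ), IsCol G k q f → (∀ u v, k - q ≤ f u → k - q ≤ f v → u = v) →
      ∑ v, f v = N → Good G k q m f := by
  intro N
  induction N using Nat.strong_induction_on with
  | _ N ih =>
    intro f hf hP hN
    by_cases hlow : ∃ v, 0 < f v ∧ IsCol G k q (Function.update f v (f v - 1))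
    · obtain ⟨v, hv, hcol⟩ := hlow
      set f' := Function.update f v (f v - 1) with hf'
      have hle : ∀ w, f' w ≤ f w := by
        intro w
        by_cases hw : w = v
        · rw [hw, hf', Function.update_self]; omega
        · rw [hf', Function.update_of_ne hw]
      have hlt : ∑ w, f' w < N := by
        rw [← hN]
        apply Finset.sum_lt_sum (fun w _ => hle w)
        exact ⟨v, Finset.mem_univ v, by rw [hf', Function.update_self]; omega⟩
      obtain ⟨x, g, hx, hg, hr⟩ := ih _ hlt f' hcol (fun a b ha hb => hP a b (ha.trans (hle a))
        (hb.trans (hle b))) rfl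
      refine ⟨x, g, hx, hg, ReflTransGen.head ⟨hf, hcol, v, fun w hw => ?_⟩ hr⟩
      rw [hf', Function.update_of_ne hw]
    · push Not at hlow
      have hst : ∀ v, 0 < f v → ∃ w, G.Adj v w ∧ (f v = f w + q ∨ f w = f v + (k - q)) :=
        fun v hv => stuck hq f hf v hv (hlow v hv)
      have hfc := (isCol_iff G k q hq f).1 hf
      by_cases hu : ∃ u, k - q < f u
      · obtain ⟨u, hu⟩ := hu
        have htk : f u < k := hfc.1 u
        obtain ⟨δ, hδ⟩ : ∃ δ, f u + q = k + δ := ⟨f u + q - k, by omega⟩
        have hδ0 : 0 < δ := by omega
        have hδq : δ < q := by omega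
        -- type (ii) blocks only occur at `δ`
        have hst' : ∀ v, 0 < f v → (∃ w, G.Adj v w ∧ f v = f w + q) ∨ (f v = δ ∧ G.Adj v u) := by
          intro v hv
          obtain ⟨w, hvw, h | h⟩ := hst v hv
          · exact Or.inl ⟨w, hvw, h⟩
          · right
            have : w = u := hP w u (by omega) hu.le
            rw [this] at h hvw
            exact ⟨by omega, hvw⟩
        have hres : ∀ n v, f v = n → f v % q = 0 ∨ f v % q = δ := by
          intro n
          induction n using Nat.strong_induction_on with
          | _ n ih =>
            intro v hv
            rcases Nat.eq_zero_or_pos (f v) with h0 | h0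
            · left; rw [h0]; exact Nat.zero_mod q
            · rcases hst' v h0 with ⟨w, _, hw⟩ | ⟨hw, _⟩
              · have := ih (f w) (by omega) w rfl
                rw [hw, Nat.add_mod_right]
                exact this
              · right; rw [hw]; exact Nat.mod_eq_of_lt hδq
        have hchain : ∀ (r i : ℕ), r < q → ∀ v, f v = r + i * q → ∀ j, j ≤ i → ∃ w, f w = r + j * q := by
          intro r i hr
          induction i with
          | zero =>
            intro v hv j hj
            have : j = 0 := by omega
            exact ⟨v, by rw [hv, this]⟩
          | succ i ih =>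
            intro v hv j hj
            rcases Nat.lt_or_ge j (i + 1) with hj' | hj'
            · have hexp : (i + 1) * q = i * q + q := by ring
              have h0 : 0 < f v := by omega
              rcases hst' v h0 with ⟨w, _, hw⟩ | ⟨hw, _⟩
              · exact ih w (by omega) j (by omega)
              · exfalso; omega
            · have : j = i + 1 := by omega
              exact ⟨v, by rw [hv, this]⟩
        have hcard : ∀ (r i : ℕ), r < q → ∀ v, f v = r + i * q →
            i + 1 ≤ (Finset.univ.filter (fun w => f w % q = r)).card := by
          intro r i hr v hv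
          have hsub : Finset.range (i + 1) ⊆
              (Finset.univ.filter (fun w => f w % q = r)).image (fun w => f w / q) := by
            intro j hj
            obtain ⟨w, hw⟩ := hchain r i hr v hv j (by have := Finset.mem_range.1 hj; omega)
            rw [Finset.mem_image]
            refine ⟨w, ?_, ?_⟩
            · simp only [Finset.mem_filter, Finset.mem_univ, true_and]
              rw [hw, Nat.add_mul_mod_self_right]
              exact Nat.mod_eq_of_lt hr
            · rw [hw, Nat.add_mul_div_right _ _ hq, Nat.div_eq_of_lt hr, zero_add]
          calc i + 1 = (Finset.range (i + 1)).card := (Finset.card_range _).symm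
            _ ≤ _ := Finset.card_le_card hsub
            _ ≤ _ := Finset.card_image_le
        have hsum : (Finset.univ.filter (fun w => f w % q = 0)).card
            + (Finset.univ.filter (fun w => f w % q = δ)).card ≤ Fintype.card V := by
          rw [← Finset.card_union_of_disjoint]
          · exact Finset.card_le_univ _
          · rw [Finset.disjoint_left]
            intro w h1 h2
            simp only [Finset.mem_filter, Finset.mem_univ, true_and] at h1 h2
            omega
        -- decomposition
        have hdec : ∀ v, f v = f v % q + f v / q * q := fun v => by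
          rw [mul_comm]; exact (Nat.mod_add_div _ _).symm
        rcases hres _ u rfl with hu0 | huδ
        · -- `f u` is a multiple of `q`
          have hj : f u = f u / q * q := by have := hdec u; rw [hu0, zero_add] at this; exact this
          have hjm : f u / q = m := by
            apply le_antisymm
            · apply Nat.le_of_lt_succ
              apply Nat.lt_of_mul_lt_mul_right (a := q)
              rw [← hj]; exact htk.trans hm2
            · by_contra hlt
              have h1 : (f u / q + 1) * q ≤ m * q := Nat.mul_le_mul_right q (by omega)
              have h2 : (f u / q + 1) * q = f u / q * q + q := by ring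
              omega
          have hum : f u = m * q := by rw [hj, hjm]
          have hc0 := hcard 0 m hq u (by rw [hum, zero_add])
          have hδtop : ∀ v, f v % q = δ → f v / q + 3 ≤ m := by
            intro v hv
            have h1 := hcard δ (f v / q) hδq v (by have := hdec v; rw [hv] at this; exact this)
            omega
          -- the new classes
          let c : V → ℕ := fun v => if f v % q = 0 then f v / q else f v / q + 1
          have hc1 : ∀ v, f v ≤ q * c v := by
            intro v
            simp only [c]
            have := hdec v
            have hmod := Nat.mod_lt (f v) hq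
            split_ifs with h
            · rw [h] at this; rw [mul_comm]; omega
            · have : q * (f v / q + 1) = f v / q * q + q := by ring
              omega
          have hc2 : ∀ v, q * c v < f v + q := by
            intro v
            simp only [c]
            have := hdec v
            have hmod := Nat.mod_lt (f v) hq
            split_ifs with h
            · rw [mul_comm]; omega
            · have h2 : q * (f v / q + 1) = f v / q * q + q := by ring
              have h3 : 0 < f v % q := Nat.pos_of_ne_zero h
              omega
          have hcu : c u = m := by simp only [c]; rw [if_pos hu0, hjm]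
          have hclt : ∀ v, v ≠ u → c v < m := by
            intro v hv
            simp only [c]
            split_ifs with h
            · by_contra hge
              push Not at hge
              apply hv
              apply hP v u _ hu.le
              have h1 : m * q ≤ f v / q * q := Nat.mul_le_mul_right q hge
              have h2 := hdec v
              omega
            · rcases hres _ v rfl with h' | h'
              · exact absurd h' h
              · have := hδtop v h'; omega
          have hcne : ∀ a b, G.Adj a b → f a + q ≤ f b → c a < c b := by
            intro a b hab h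
            by_contra hge
            push Not at hge
            have h1 := hc2 a
            have h2 := hc1 b
            have h3 : q * c b ≤ q * c a := Nat.mul_le_mul_left q hge
            omega
          have hcne' : ∀ a b, G.Adj a b → c a ≠ c b := by
            intro a b hab
            rcases hfc.2 a b hab with h | h
            · exact (hcne a b hab h.1).ne
            · exact (hcne b a hab.symm h.1).ne'
          have hnu : ∀ w, G.Adj u w → c w ≠ 0 := by
            intro w huw h0
            have h1 := hc1 w
            rw [h0, mul_zero] at h1
            have h2 := hfc.2 u w huw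
            unfold ok at h2
            omega
          let c' : V → ℕ := Function.update c u 0
          have hc'u : c' u = 0 := by simp [c']
          have hc'v : ∀ v, v ≠ u → c' v = c v := fun v hv => by simp [c', hv]
          have hmpos : 0 < m := by omega
          have hcol' : IsCol G m 1 c' := by
            apply isCol_one
            · intro v
              by_cases hv : v = u
              · rw [hv, hc'u]; exact hmpos
              · rw [hc'v v hv]; exact hclt v hv
            · intro a b hab
              by_cases ha : a = u
              · have hb : b ≠ u := by rintro rfl; exact hab.ne ha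
                rw [ha, hc'u, hc'v b hb]
                exact (hnu b (ha ▸ hab)).symm
              · by_cases hb : b = u
                · rw [hb, hc'u, hc'v a ha]
                  exact hnu a (hb ▸ hab.symm)
                · rw [hc'v a ha, hc'v b hb]; exact hcne' a b hab
          -- the intermediate colouring
          have hqm : q * m = m * q := mul_comm _ _
          have hcle : ∀ v, v ≠ u → q * c v + q ≤ q * m := by
            intro v hv
            calc q * c v + q = q * (c v + 1) := by ring
              _ ≤ q * m := Nat.mul_le_mul_left q (hclt v hv)
          have hcolc : IsCol G k q (fun v => q * c v) := by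
            rw [isCol_iff G k q hq]
            constructor
            · intro v
              by_cases hv : v = u
              · rw [hv, hcu]; omega
              · have := hcle v hv; omega
            · have key : ∀ a b, G.Adj a b → c a < c b → ok k q (q * c a) (q * c b) := by
                intro a b hab h
                left
                constructor
                · calc q * c a + q = q * (c a + 1) := by ring
                    _ ≤ q * c b := Nat.mul_le_mul_left q h
                · by_cases hb : b = u
                  · have h1 := hnu a (hb ▸ hab.symm)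
                    have h2 : q * 1 ≤ q * c a := Nat.mul_le_mul_left q (Nat.pos_of_ne_zero h1)
                    rw [hb, hcu]
                    omega
                  · have := hcle b hb; omega
              intro a b hab
              rcases Nat.lt_or_gt_of_ne (hcne' a b hab) with h | h
              · exact key a b hab h
              · exact ok_symm (key b a hab.symm h)
          have hreach1 : Reach G k q f (fun v => q * c v) := by
            apply raise' hq f _ hf hcolc hc1
            intro v hv
            have hvu : v ≠ u := by
              rintro rfl
              apply hv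
              rw [hcu, hum, mul_comm]
            have := hcle v hvu
            omega
          have hphi : phi k q 0 c' = fun v => q * c' v := by
            funext v
            simp only [phi, zero_add]
            apply Nat.mod_eq_of_lt
            have h1 := ((isCol_iff G m 1 one_pos c').1 hcol').1 v
            calc q * c' v < q * m := Nat.mul_lt_mul_of_pos_left h1 hq
              _ ≤ k := by rw [hqm]; exact hm1
          have hcolφ : IsCol G k q (phi k q 0 c') := phi_isCol hq hm1 0 (by omega) c' hcol'
          refine ⟨0, c', by omega, hcol', hreach1.tail ⟨hcolc, hcolφ, u, ?_⟩⟩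
          intro w hw
          rw [hphi]
          change q * c w = q * c' w
          rw [hc'v w hw]
        · -- `f u` has residue `δ`
          have hj : f u = δ + f u / q * q := by have := hdec u; rw [huδ] at this; exact this
          have hk : k = (f u / q + 1) * q := by
            have : (f u / q + 1) * q = f u / q * q + q := by ring
            omega
          have hm : m = f u / q + 1 := by
            apply le_antisymm
            · apply Nat.le_of_mul_le_mul_right _ hq
              rw [← hk]; exact hm1
            · apply Nat.le_of_lt_succ
              apply Nat.lt_of_mul_lt_mul_right (a := q)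
              rw [← hk]; exact hm2
          have hkm : k = m * q := by rw [hk, ← hm]
          have hc0 := hcard δ (f u / q) hδq u hj
          have htop : ∀ v, f v % q = 0 → f v / q + 2 ≤ m := by
            intro v hv
            have h1 := hcard 0 (f v / q) hq v (by have := hdec v; rw [hv] at this; exact this)
            omega
          have hglt : ∀ v, f v / q < m := by
            intro v
            apply Nat.div_lt_of_lt_mul
            rw [mul_comm, ← hkm]
            exact hfc.1 v
          have hgne : ∀ a b, G.Adj a b → f a / q ≠ f b / q := by
            have key : ∀ a b, f a + q ≤ f b → f a / q < f b / q := by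
              intro a b h
              calc f a / q < (f a + q) / q := by rw [Nat.add_div_right _ hq]; omega
                _ ≤ f b / q := Nat.div_le_div_right h
            intro a b hab
            rcases hfc.2 a b hab with h | h
            · exact (key a b h.1).ne
            · exact (key b a h.1).ne'
          have hcol' : IsCol G m 1 (fun v => f v / q) := isCol_one _ hglt hgne
          have hδk : δ < k := by omega
          have hcolφ : IsCol G k q (phi k q δ (fun v => f v / q)) :=
            phi_isCol hq hm1 δ hδk _ hcol'
          have hφ : ∀ v, phi k q δ (fun v => f v / q) v = δ + f v / q * q := by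
            intro v
            simp only [phi]
            rw [mul_comm q]
            apply Nat.mod_eq_of_lt
            have h1 : (f v / q + 1) * q ≤ m * q := Nat.mul_le_mul_right q (hglt v)
            have h2 : (f v / q + 1) * q = f v / q * q + q := by ring
            omega
          refine ⟨δ, fun v => f v / q, hδk, hcol', raise' hq f _ hf hcolφ ?_ ?_⟩
          · intro v
            rw [hφ v]
            have := hdec v
            rcases hres _ v rfl with h | h <;> omega
          · intro v hv
            rw [hφ v] at hv ⊢
            have h1 := hdec v
            rcases hres _ v rfl with h | h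
            · have h2 := htop v h
              have h3 : (f v / q + 2) * q ≤ m * q := Nat.mul_le_mul_right q h2
              have h4 : (f v / q + 2) * q = f v / q * q + q + q := by ring
              omega
            · exact absurd (by omega) hv
      · -- no vertex above `k - q`
        push Not at hu
        have hdvd : ∀ n v, f v = n → f v % q = 0 := by
          intro n
          induction n using Nat.strong_induction_on with
          | _ n ih =>
            intro v hv
            rcases Nat.eq_zero_or_pos (f v) with h0 | h0
            · rw [h0]; exact Nat.zero_mod q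
            · obtain ⟨w, _, hw | hw⟩ := hst v h0
              · have := ih (f w) (by omega) w rfl
                rw [hw, Nat.add_mod_right]
                exact this
              · have := hu w; omega
        have hfg : ∀ v, f v = 0 + q * (f v / q) := by
          intro v
          rw [zero_add]
          have := Nat.mod_add_div (f v) q
          rw [hdvd _ v rfl, zero_add] at this
          exact this.symm
        refine ⟨0, fun v => f v / q, by omega, ?_, ?_⟩
        · apply isCol_one
          · intro v
            apply Nat.div_lt_of_lt_mul
            have h1 := hu v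
            have h2 : (m + 1) * q = m * q + q := by ring
            rw [mul_comm]
            omega
          · intro a b hab h
            have h1 := hfc.2 a b hab
            have h2 := hfg a
            have h3 := hfg b
            rw [h] at h2
            unfold ok at h1
            omega
        · rw [phi_eq f hfc.1 _ 0 hfg]

/-- every `(k, q)`-colouring is reachable from a scaled ordinary colouring -/
lemma reduce (hq : 0 < q) (hqk : q ≤ k) (hm1 : m * q ≤ k) (hm2 : k < (m + 1) * q)
    (hn : Fintype.card V + 1 ≤ 2 * m) (f : V → ℕ) (hf : IsCol G k q f) : Good G k q m f := by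
  have hfc := (isCol_iff G k q hq f).1 hf
  obtain ⟨x, hx, hP⟩ := exists_rot hqk (V := V) (by
    have h1 : (Fintype.card V + 1) * q ≤ 2 * m * q := Nat.mul_le_mul_right q hn
    have h2 : (Fintype.card V + 1) * q = Fintype.card V * q + q := by ring
    have h3 : 2 * m * q = 2 * (m * q) := by ring
    omega) f hfc.1
  obtain ⟨y, g, hy, hg, hr⟩ := reduce_aux hq hqk hm1 hm2 hn _ (rot k x f)
    (rot_isCol hq x hx f hf) hP rfl
  -- rotate back
  have hback : ∀ h : V → ℕ, (∀ v, h v < k) → rot k (k - x) (rot k x h) = h ∨ x = 0 := by
    intro h hh
    rcases Nat.eq_zero_or_pos x with h0 | h0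
    · exact Or.inr h0
    · left
      funext v
      simp only [rot, Nat.add_mod_mod]
      have : k - x + (x + h v) = h v + k := by omega
      rw [this, Nat.add_mod_right]
      exact Nat.mod_eq_of_lt (hh v)
  rcases hback f hfc.1 with hb | hb
  · by_cases hx0 : x = 0
    · subst hx0
      have : rot k 0 f = f := by
        funext v
        simp only [rot, zero_add]
        exact Nat.mod_eq_of_lt (hfc.1 v)
      rw [this] at hr
      exact ⟨y, g, hy, hg, hr⟩
    · have h2 := rot_reach hq (k - x) (by omega) hr
      rw [hb] at h2
      refine ⟨(k - x + y) % k, g, Nat.mod_lt _ (by omega), hg, ?_⟩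
      have : rot k (k - x) (phi k q y g) = phi k q ((k - x + y) % k) g := by
        funext v
        simp only [rot, phi, Nat.add_mod_mod, Nat.mod_add_mod]
        congr 1
        ring
      rw [← this]
      exact h2
  · subst hb
    have : rot k 0 f = f := by
      funext v
      simp only [rot, zero_add]
      exact Nat.mod_eq_of_lt (hfc.1 v)
    rw [this] at hr
    exact ⟨y, g, hy, hg, hr⟩

end Main

end Pool.Agent.Helper37.CircMix
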