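import Mathlib
import Pool.Agent.Helper37.CircMix.Gen

/-!
# The complement of the theta graph `θ(2,3,5)`
-/

set_option autoImplicit false

namespace Pool.Agent.Helper37.CircMix

/-- first ends of the edges of `θ(2,3,5)` -/
def ea : Fin 10 → Fin 9 := ![0, 1, 2, 3, 4, 5, 6, 0, 0, 3]

/-- second ends of the edges of `θ(2,3,5)` -/
def eb : Fin 10 → Fin 9 := ![1, 2, 3, 4, 5, 6, 7, 7, 8, 8]

/-- adjacency in `θ(2,3,5)`: the `8`-cycle `0, ..., 7` and a vertex `8` joined to `0` and `3` -/
def hb (u v : Fin 9) : Bool :=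
  (List.finRange 10).any (fun i => (ea i == u && eb i == v) || (ea i == v && eb i == u))

lemma hb_symm : ∀ u v : Fin 9, hb u v = hb v u := by decide

/-- the complement of `θ(2,3,5)` -/
def G9 : SimpleGraph (Fin 9) where
  Adj u v := u ≠ v ∧ hb u v = false
  symm := ⟨fun u v h => ⟨h.1.symm, by rw [hb_symm]; exact h.2⟩⟩
  loopless := ⟨fun u h => h.1 rfl⟩

/-- pairs of edges with a common end -/
def shr : List (Fin 10 × Fin 10) :=
  [(0, 7), (0, 8), (7, 8), (0, 1), (1, 2), (2, 3), (2, 9), (3, 9), (3, 4), (4, 5), (5, 6), (6, 7),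
    (8, 9)]

/-- matchings -/
def vd (β : Fin 10 → Bool) : Bool := shr.all (fun p => !(β p.1 && β p.2))

/-- `w` is not covered -/
def um (β : Fin 10 → Bool) (w : Fin 9) : Bool :=
  (List.finRange 10).all (fun i => !(β i) || (!(ea i == w) && !(eb i == w)))

/-- move `v` to the class of the uncovered vertex `w` -/
def nb (β : Fin 10 → Bool) (v w : Fin 9) : Fin 10 → Bool := fun i =>
  if (ea i = v ∧ eb i = w) ∨ (ea i = w ∧ eb i = v) then true
  else if ea i = v ∨ eb i = v then false else β i

/-- code of an edge set -/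
def code (β : Fin 10 → Bool) : ℕ :=
  (List.finRange 10).foldl (fun s i => if β i then s + 2 ^ (i : ℕ) else s) 0

/-- ranks of matchings -/
def rkT : List (ℕ × ℕ) :=
  [(0, 4), (1, 3), (2, 4), (4, 3), (5, 2), (8, 4), (9, 3), (10, 4), (16, 3), (17, 2), (18, 3), (20, 2), (21, 1), (32, 4), (33, 3), (34, 4), (36, 3), (37, 2), (40, 4), (41, 3), (42, 4), (64, 3), (65, 2), (66, 3), (68, 2), (69, 1), (72, 3), (73, 2), (74, 3), (80, 2), (81, 1), (82, 2), (84, 1), (85, 0), (128, 4), (130, 4), (132, 3), (136, 4), (138, 4), (144, 3), (146, 3), (148, 2), (160, 4), (162, 4), (164, 3), (168, 4), (170, 5), (256, 4), (258, 4), (260, 3), (264, 4), (266, 4), (272, 3), (274, 3), (276, 2), (288, 4), (290, 4), (292, 3), (296, 4), (298, 4), (320, 3), (322, 3), (324, 2), (328, 3), (330, 3), (336, 2), (338, 2), (340, 1), (512, 4), (513, 3), (514, 4), (528, 3), (529, 2), (530, 3), (544, 4), (545, 3), (546, 4), (576, 3), (577, 2), (578, 3), (592, 2), (593, 1), (594, 2), (640, 4), (642, 4), (656, 3), (658, 3), (672, 4), (674, 4)]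

/-- rank -/
def rk (β : Fin 10 → Bool) : ℕ := (rkT.lookup (code β)).getD 100

/-- directed edges -/
def dE : List (Fin 9 × Fin 9) :=
  (List.finRange 10).map (fun i => (ea i, eb i)) ++ (List.finRange 10).map (fun i => (eb i, ea i))

/-- the check -/
def chk (β : Fin 10 → Bool) : Bool :=
  !(vd β) || code β == 85 || dE.any (fun p => um β p.2 && decide (rk (nb β p.1 p.2) < rk β))

/-- quantifier over Boolean lists -/
def allL : ℕ → (List Bool → Bool) → Bool
  | 0, p => p []
  | n + 1, p => allL n (fun l => p (false :: l)) && allL n (fun l => p (true :: l))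

lemma allL_spec : ∀ (n : ℕ) (p : List Bool → Bool), allL n p = true → ∀ l : List Bool,
    l.length = n → p l = true := by
  intro n
  induction n with
  | zero =>
    intro p h l hl
    rw [List.length_eq_zero_iff] at hl
    rw [hl]; exact h
  | succ n ih =>
    intro p h l hl
    rw [allL, Bool.and_eq_true] at h
    match l, hl with
    | b :: l, hl =>
      have hl' : l.length = n := by simpa using hl
      cases b
      · exact ih _ h.1 l hl'
      · exact ih _ h.2 l hl'

/-- list to function -/
def toF (l : List Bool) : Fin 10 → Bool := fun i => l.getD i false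

set_option maxRecDepth 100000 in
lemma all_chk : allL 10 (fun l => chk (toF l)) = true := by decide

lemma chk_all (β : Fin 10 → Bool) : chk β = true := by
  have h := allL_spec 10 _ all_chk (List.ofFn β) (by simp)
  have : toF (List.ofFn β) = β := by
    funext i
    fin_cases i <;> rfl
  rwa [this] at h

/-! ### colourings of `G9` -/

/-- equalities along the edges of the theta graph -/
def bits (g : Fin 9 → ℕ) : Fin 10 → Bool := fun i => decide (g (ea i) = g (eb i))

lemma proper_iff {m : ℕ} {g : Fin 9 → ℕ} (hg : IsCol G9 m 1 g) (u v : Fin 9) (huv : u ≠ v)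
    (h : g u = g v) : hb u v = true := by
  by_contra hne
  have h1 := ((isCol_iff G9 m 1 one_pos g).1 hg).2 u v ⟨huv, by simpa using hne⟩
  unfold ok at h1
  omega

set_option maxRecDepth 100000 in
lemma tri_free : ∀ u v w : Fin 9, hb u v = true → hb u w = true → hb v w = false := by decide +kernel

lemma hb_irrefl : ∀ u : Fin 9, hb u u = false := by decide

lemma shr_spec : ∀ p ∈ shr, ∃ u v w : Fin 9, u ≠ v ∧ u ≠ w ∧ v ≠ w ∧ hb u v = true ∧ hb u w = true ∧
    ((ea p.1 = u ∧ eb p.1 = v) ∨ (ea p.1 = v ∧ eb p.1 = u)) ∧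
    ((ea p.2 = u ∧ eb p.2 = w) ∨ (ea p.2 = w ∧ eb p.2 = u)) := by decide +kernel

lemma vd_bits {m : ℕ} {g : Fin 9 → ℕ} (hg : IsCol G9 m 1 g) : vd (bits g) = true := by
  unfold vd
  rw [List.all_eq_true]
  intro p hp
  obtain ⟨u, v, w, _, _, hvw, h1, h2, h3, h4⟩ := shr_spec p hp
  by_contra hcon
  simp only [Bool.not_eq_true, Bool.not_eq_false', Bool.and_eq_true, bits, decide_eq_true_eq] at hcon
  obtain ⟨e1, e2⟩ := hcon
  have e3 : g v = g w := by
    rcases h3 with ⟨a, b⟩ | ⟨a, b⟩ <;> rcases h4 with ⟨c, d⟩ | ⟨c, d⟩ <;>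
      rw [a, b] at e1 <;> rw [c, d] at e2 <;> omega
  have h5 := proper_iff hg v w hvw e3
  rw [tri_free u v w h1 h2] at h5
  exact absurd h5 (by simp)

lemma hb_spec : ∀ u v : Fin 9, hb u v = true → ∃ i : Fin 10,
    (ea i = u ∧ eb i = v) ∨ (ea i = v ∧ eb i = u) := by decide

lemma um_bits {m : ℕ} {g : Fin 9 → ℕ} (hg : IsCol G9 m 1 g) (w : Fin 9)
    (h : um (bits g) w = true) (x : Fin 9) (hx : x ≠ w) : g x ≠ g w := by
  intro he
  obtain ⟨i, hi⟩ := hb_spec x w (proper_iff hg x w hx he)
  unfold um at h
  rw [List.all_eq_true] at h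
  have h1 := h i (List.mem_finRange i)
  have hbit : bits g i = true := by
    simp only [bits, decide_eq_true_eq]
    rcases hi with ⟨a, b⟩ | ⟨a, b⟩ <;> rw [a, b]
    · exact he
    · exact he.symm
  rw [hbit] at h1
  rcases hi with ⟨a, b⟩ | ⟨a, b⟩ <;> simp [a, b] at h1

lemma ea_ne_eb : ∀ i : Fin 10, ea i ≠ eb i := by decide

lemma bits_update {m : ℕ} {g : Fin 9 → ℕ} (hg : IsCol G9 m 1 g) (v w : Fin 9) (hvw : v ≠ w)
    (h : um (bits g) w = true) : bits (Function.update g v (g w)) = nb (bits g) v w := by
  have hu := um_bits hg w h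
  funext i
  have hab := ea_ne_eb i
  unfold nb bits
  by_cases ha : ea i = v
  · have hb' : eb i ≠ v := fun h => hab (ha.trans h.symm)
    by_cases hbw : eb i = w
    · rw [if_pos (Or.inl ⟨ha, hbw⟩), ha, hbw]
      simp [Function.update_of_ne hvw.symm]
    · rw [if_neg (by
        rintro (⟨_, h⟩ | ⟨h, _⟩)
        · exact hbw h
        · exact hvw (ha.symm.trans h)), if_pos (Or.inl ha), ha]
      rw [Function.update_self, Function.update_of_ne hb']
      simpa using (hu _ hbw).symm
  · by_cases hb' : eb i = v
    · by_cases haw : ea i = w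
      · rw [if_pos (Or.inr ⟨haw, hb'⟩), haw, hb']
        simp [Function.update_of_ne hvw.symm]
      · rw [if_neg (by
          rintro (⟨h, _⟩ | ⟨h, _⟩)
          · exact ha h
          · exact haw h), if_pos (Or.inr hb'), hb']
        rw [Function.update_self, Function.update_of_ne ha]
        simpa using hu _ haw
    · rw [if_neg (by
        rintro (⟨h, _⟩ | ⟨_, h⟩)
        · exact ha h
        · exact hb' h), if_neg (by
        rintro (h | h)
        · exact ha h
        · exact hb' h)]
      rw [Function.update_of_ne ha, Function.update_of_ne hb']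

/-- a recolouring to the colour of a singleton class -/
lemma move_step {m : ℕ} {g : Fin 9 → ℕ} (hg : IsCol G9 m 1 g) (v w : Fin 9)
    (hvw : hb v w = true) (h : um (bits g) w = true) :
    Step G9 m 1 g (Function.update g v (g w)) := by
  have hu := um_bits hg w h
  have hne : v ≠ w := by
    rintro rfl
    rw [hb_irrefl] at hvw
    exact absurd hvw (by simp)
  have hgc := (isCol_iff G9 m 1 one_pos g).1 hg
  refine ⟨hg, ?_, v, fun x hx => by rw [Function.update_of_ne hx]⟩
  apply isCol_one
  · intro x
    by_cases hx : x = v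
    · rw [hx, Function.update_self]; exact hgc.1 w
    · rw [Function.update_of_ne hx]; exact hgc.1 x
  · have key : ∀ b, G9.Adj v b → g w ≠ g b := by
      intro b hb'
      have hbw : b ≠ w := by
        rintro rfl
        have := hb'.2
        rw [hvw] at this
        exact absurd this (by simp)
      exact (hu b hbw).symm
    intro a b hab
    by_cases ha : a = v
    · have hb' : b ≠ v := by rintro rfl; exact hab.ne ha
      rw [ha, Function.update_self, Function.update_of_ne hb']
      exact key b (ha ▸ hab)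
    · by_cases hb' : b = v
      · rw [hb', Function.update_self, Function.update_of_ne ha]
        exact (key a (hb' ▸ hab.symm)).symm
      · rw [Function.update_of_ne ha, Function.update_of_ne hb']
        have := hgc.2 a b hab
        unfold ok at this
        omega

/-- every colouring can be moved to the standard partition -/
lemma to_std {m : ℕ} : ∀ (n : ℕ) (g : Fin 9 → ℕ), IsCol G9 m 1 g → rk (bits g) = n →
    ∃ g', Reach G9 m 1 g g' ∧ IsCol G9 m 1 g' ∧ code (bits g') = 85 := by
  intro n
  induction n using Nat.strong_induction_on with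
  | _ n ih =>
    intro g hg hn
    have h := chk_all (bits g)
    unfold chk at h
    rw [vd_bits hg] at h
    simp only [Bool.not_true, Bool.false_or, Bool.or_eq_true, beq_iff_eq, List.any_eq_true,
      Bool.and_eq_true, decide_eq_true_eq] at h
    rcases h with h | ⟨⟨v, w⟩, hmem, hum, hlt⟩
    · exact ⟨g, Relation.ReflTransGen.refl, hg, h⟩
    · have hvw : hb v w = true := by
        revert hmem
        have : ∀ p ∈ dE, hb p.1 p.2 = true := by decide
        intro hmem
        exact this _ hmem
      have hne : v ≠ w := by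
        rintro rfl
        rw [hb_irrefl] at hvw
        exact absurd hvw (by simp)
      have hst := move_step hg v w hvw hum
      rw [← bits_update hg v w hne hum, hn] at hlt
      obtain ⟨g', h1, h2, h3⟩ := ih _ hlt _ hst.2.1 rfl
      exact ⟨g', Relation.ReflTransGen.head hst h1, h2, h3⟩

end Pool.Agent.Helper37.CircMix
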