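import Mathlib
import Pool.Agent.Helper37.CircMix.Theta

/-!
# Ordinary colourings of `G9` are connected
-/

set_option autoImplicit false

namespace Pool.Agent.Helper37.CircMix

open Relation

/-- the standard partition -/
def cl : Fin 9 → Fin 5 := ![0, 0, 1, 1, 2, 2, 3, 3, 4]

/-- labelled standard partition -/
def lamCol (lam : Fin 5 → ℕ) : Fin 9 → ℕ := fun v => lam (cl v)

lemma cl_hb : ∀ u v : Fin 9, u ≠ v → cl u = cl v → hb u v = true := by decide

lemma cl_reps : ∀ i j : Fin 5, i ≠ j → ∃ u v : Fin 9, cl u = i ∧ cl v = j ∧ u ≠ v ∧ hb u v = false := by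
  decide

lemma lamCol_isCol {m : ℕ} (lam : Fin 5 → ℕ) (hlt : ∀ i, lam i < m)
    (hinj : Function.Injective lam) : IsCol G9 m 1 (lamCol lam) := by
  apply isCol_one
  · exact fun v => hlt _
  · intro u v huv h
    have h1 := cl_hb u v huv.1 (hinj h)
    rw [huv.2] at h1
    exact absurd h1 (by simp)

set_option maxRecDepth 100000 in
lemma all_code : allL 10 (fun l => !(code (toF l) == 85) || (toF l 0 && toF l 2 && toF l 4
    && toF l 6)) = true := by decide

lemma code_spec (β : Fin 10 → Bool) (h : code β = 85) :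
    β 0 = true ∧ β 2 = true ∧ β 4 = true ∧ β 6 = true := by
  have h1 := allL_spec 10 _ all_code (List.ofFn β) (by simp)
  have : toF (List.ofFn β) = β := by
    funext i
    fin_cases i <;> rfl
  simp only [this] at h1
  rw [h] at h1
  simpa [and_assoc] using h1

lemma std_eq {m : ℕ} {g : Fin 9 → ℕ} (hg : IsCol G9 m 1 g) (h : code (bits g) = 85) :
    ∃ lam : Fin 5 → ℕ, g = lamCol lam ∧ (∀ i, lam i < m) ∧ Function.Injective lam := by
  obtain ⟨h0, h2, h4, h6⟩ := code_spec _ h
  simp only [bits, decide_eq_true_eq] at h0 h2 h4 h6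
  have hgc := (isCol_iff G9 m 1 one_pos g).1 hg
  have e0 : g 0 = g 1 := h0
  have e2 : g 2 = g 3 := h2
  have e4 : g 4 = g 5 := h4
  have e6 : g 6 = g 7 := h6
  have hgl : g = lamCol (fun i => g (![0, 2, 4, 6, 8] i)) := by
    funext v
    fin_cases v
    · rfl
    · exact e0.symm
    · rfl
    · exact e2.symm
    · rfl
    · exact e4.symm
    · rfl
    · exact e6.symm
    · rfl
  refine ⟨_, hgl, fun i => hgc.1 _, ?_⟩
  intro i j hij
  by_contra hne
  obtain ⟨u, v, hu, hv, huv, hb'⟩ := cl_reps i j hne
  have h1 : g u = g v := by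
    rw [hgl]
    simp only [lamCol, hu, hv]
    exact hij
  have := proper_iff hg u v huv h1
  rw [hb'] at this
  exact absurd this (by simp)

/-! ### explicit paths -/

/-- explicit recolouring sequences realising the transpositions of the colours -/
def pths : List ((ℕ × ℕ) × List (Fin 9 × Fin 9)) := [
  ((0, 1), [(0, 8), (2, 1), (4, 3), (6, 5), (0, 7), (3, 8), (5, 4), (7, 6), (8, 0), (2, 3), (0, 1), (3, 8), (1, 2), (8, 0), (4, 3), (6, 5), (0, 7), (3, 8), (5, 4), (7, 6), (8, 0), (2, 3), (0, 1), (3, 8), (1, 2), (8, 0), (4, 3), (6, 5), (0, 7), (3, 8), (5, 4), (7, 6), (1, 0), (3, 2)]),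
  ((0, 2), [(0, 8), (2, 1), (4, 3), (6, 5), (0, 7), (3, 8), (5, 4), (7, 6), (8, 0), (2, 3), (0, 1), (3, 8), (1, 2), (7, 0), (5, 6), (3, 4), (0, 8), (6, 7), (4, 5), (8, 3), (7, 0), (5, 6), (3, 4), (0, 8), (6, 7), (4, 5), (2, 3), (0, 1), (3, 8), (1, 2), (8, 0), (2, 3), (0, 1)]),
  ((0, 3), [(0, 8), (2, 1), (8, 3), (7, 0), (5, 6), (3, 4), (0, 8), (6, 7), (4, 5), (8, 3), (1, 0), (3, 2), (0, 8), (2, 1), (4, 3), (6, 5), (0, 7), (3, 8), (5, 4), (7, 6), (8, 0), (4, 3), (6, 5), (0, 7), (3, 8), (5, 4), (7, 6), (1, 0), (3, 2)]),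
  ((0, 4), [(3, 8), (1, 2), (7, 0), (5, 6), (3, 4), (0, 8), (6, 7), (4, 5), (8, 3), (1, 0), (3, 2), (0, 8), (2, 1), (8, 3), (7, 0), (5, 6), (3, 4), (0, 8), (6, 7), (4, 5), (8, 3), (1, 0), (3, 2), (0, 8), (2, 1), (8, 3), (7, 0), (5, 6), (3, 4), (0, 8), (6, 7), (4, 5), (8, 3), (1, 0), (3, 2)]),
  ((1, 2), [(0, 8), (2, 1), (4, 3), (6, 5), (0, 7), (3, 8), (5, 4), (7, 6), (8, 0), (4, 3), (6, 5), (0, 7), (3, 8), (5, 4), (7, 6), (1, 0), (3, 2), (0, 8), (2, 1), (8, 3), (7, 0), (5, 6), (3, 4), (0, 8), (6, 7), (4, 5), (8, 3), (1, 0), (3, 2)]),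
  ((1, 3), [(3, 8), (1, 2), (7, 0), (5, 6), (3, 4), (0, 8), (6, 7), (4, 5), (8, 3), (1, 0), (3, 2), (0, 8), (2, 1), (4, 3), (6, 5), (0, 7), (3, 8), (5, 4), (7, 6), (8, 0), (4, 3), (6, 5), (0, 7), (3, 8), (5, 4), (7, 6), (1, 0), (3, 2), (0, 8), (2, 1), (8, 3), (1, 0), (3, 2)]),
  ((1, 4), [(0, 8), (2, 1), (4, 3), (6, 5), (0, 7), (3, 8), (5, 4), (7, 6), (8, 0), (2, 3), (0, 1), (3, 8), (1, 2), (8, 0), (4, 3), (6, 5), (0, 7), (3, 8), (5, 4), (7, 6), (8, 0), (2, 3), (0, 1), (3, 8), (1, 2), (8, 0), (4, 3), (6, 5), (0, 7), (3, 8), (5, 4), (7, 6), (8, 0), (2, 3), (0, 1)]),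
  ((2, 3), [(0, 8), (2, 1), (4, 3), (6, 5), (0, 7), (3, 8), (5, 4), (7, 6), (8, 0), (2, 3), (0, 1), (3, 8), (1, 2), (7, 0), (5, 6), (3, 4), (0, 8), (6, 7), (4, 5), (2, 3), (0, 1), (3, 8), (1, 2), (8, 0), (4, 3), (6, 5), (0, 7), (3, 8), (5, 4), (7, 6), (1, 0), (3, 2)]),
  ((2, 4), [(0, 8), (2, 1), (4, 3), (6, 5), (0, 7), (3, 8), (5, 4), (7, 6), (1, 0), (3, 2), (0, 8), (2, 1), (8, 3), (7, 0), (5, 6), (3, 4), (0, 8), (6, 7), (4, 5), (2, 3), (0, 1), (3, 8), (1, 2), (7, 0), (5, 6), (3, 4), (0, 8), (6, 7), (4, 5), (8, 3), (1, 0), (3, 2)]),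
  ((3, 4), [(0, 8), (2, 1), (8, 3), (7, 0), (5, 6), (3, 4), (0, 8), (6, 7), (4, 5), (2, 3), (0, 1), (3, 8), (1, 2), (7, 0), (5, 6), (3, 4), (0, 8), (6, 7), (4, 5), (8, 3), (1, 0), (3, 2), (0, 8), (2, 1), (4, 3), (6, 5), (0, 7), (3, 8), (5, 4), (7, 6), (1, 0), (3, 2)])]

/-- list to colouring -/
def toG (l : List ℕ) : Fin 9 → ℕ := fun v => l.getD v 0

/-- properness -/
def prop5 (l : List ℕ) : Bool :=
  (List.finRange 9).all (fun u => decide (toG l u < 5) &&
    (List.finRange 9).all (fun v => u == v || hb u v || !(toG l u == toG l v)))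

/-- path check -/
def chkPath : List ℕ → List (Fin 9 × Fin 9) → List ℕ → Bool
  | l, [], t => (List.finRange 9).all (fun v => toG l v == toG t v)
  | l, (v, w) :: ms, t =>
    let l' := l.set v (toG l w)
    prop5 l' && (List.finRange 9).all (fun x => x == v || toG l x == toG l' x) && chkPath l' ms t

lemma prop5_spec (l : List ℕ) (h : prop5 l = true) : IsCol G9 5 1 (toG l) := by
  unfold prop5 at h
  rw [List.all_eq_true] at h
  apply isCol_one
  · intro v
    have := h v (List.mem_finRange v)
    rw [Bool.and_eq_true] at this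
    simpa using this.1
  · intro u v huv he
    have h1 := h u (List.mem_finRange u)
    rw [Bool.and_eq_true, List.all_eq_true] at h1
    have h2 := h1.2 v (List.mem_finRange v)
    simp [he, huv.1, huv.2] at h2

lemma chkPath_spec : ∀ (ms : List (Fin 9 × Fin 9)) (l t : List ℕ), prop5 l = true →
    chkPath l ms t = true → Reach G9 5 1 (toG l) (toG t) := by
  intro ms
  induction ms with
  | nil =>
    intro l t _ h
    unfold chkPath at h
    rw [List.all_eq_true] at h
    have : toG l = toG t := by
      funext v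
      have := h v (List.mem_finRange v)
      simpa using this
    rw [this]
  | cons p ms ih =>
    obtain ⟨v, w⟩ := p
    intro l t hl h
    unfold chkPath at h
    simp only [Bool.and_eq_true] at h
    obtain ⟨⟨h1, h2⟩, h3⟩ := h
    refine ReflTransGen.head ⟨prop5_spec l hl, prop5_spec _ h1, v, ?_⟩ (ih _ t h1 h3)
    rw [List.all_eq_true] at h2
    intro x hx
    have := h2 x (List.mem_finRange x)
    simpa [hx] using this

/-- swap of two numbers -/
def sw (i j c : ℕ) : ℕ := if c = i then j else if c = j then i else c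

/-- the standard colouring with two colours swapped -/
def swL (i j : ℕ) : List ℕ := [0, 0, 1, 1, 2, 2, 3, 3, 4].map (sw i j)

/-- lookup of a path -/
def pth (i j : ℕ) : List (Fin 9 × Fin 9) :=
  (pths.lookup (if i < j then (i, j) else (j, i))).getD []

set_option maxRecDepth 100000 in
lemma pth_ok : ∀ i j : Fin 5, i ≠ j →
    chkPath [0, 0, 1, 1, 2, 2, 3, 3, 4] (pth i j) (swL i j) = true := by decide

lemma prop5_start : prop5 [0, 0, 1, 1, 2, 2, 3, 3, 4] = true := by decide

lemma reach_swap (i j : Fin 5) (hij : i ≠ j) :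
    Reach G9 5 1 (lamCol (fun c => (c : ℕ))) (lamCol (fun c => ((Equiv.swap i j c : Fin 5) : ℕ))) := by
  have h := chkPath_spec _ _ _ prop5_start (pth_ok i j hij)
  have h1 : toG [0, 0, 1, 1, 2, 2, 3, 3, 4] = lamCol (fun c => (c : ℕ)) := by
    funext v
    fin_cases v <;> rfl
  have h2 : toG (swL i j) = lamCol (fun c => ((Equiv.swap i j c : Fin 5) : ℕ)) := by
    funext v
    simp only [lamCol, Equiv.swap_apply_def]
    have : ∀ (i j : Fin 5) (v : Fin 9), toG (swL i j) v
        = ((if cl v = i then j else if cl v = j then i else cl v : Fin 5) : ℕ) := by decide +kernel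
    exact this i j v
  rw [h1, h2] at h
  exact h

/-- relabelling of colours -/
lemma reach_relabel {m : ℕ} (Λ : ℕ → ℕ) (hlt : ∀ c, c < 5 → Λ c < m)
    (hinj : ∀ a b, a < 5 → b < 5 → Λ a = Λ b → a = b) {f g : Fin 9 → ℕ}
    (h : Reach G9 5 1 f g) : Reach G9 m 1 (fun v => Λ (f v)) (fun v => Λ (g v)) := by
  have hcol : ∀ f : Fin 9 → ℕ, IsCol G9 5 1 f → IsCol G9 m 1 (fun v => Λ (f v)) := by
    intro f hf
    have hfc := (isCol_iff G9 5 1 one_pos f).1 hf
    apply isCol_one
    · exact fun v => hlt _ (hfc.1 v)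
    · intro u v huv he
      have h1 := hinj _ _ (hfc.1 u) (hfc.1 v) he
      have h2 := hfc.2 u v huv
      unfold ok at h2
      omega
  refine h.map (fun f v => Λ (f v)) ?_
  rintro f g ⟨h1, h2, v, hv⟩
  exact ⟨hcol f h1, hcol g h2, v, fun w hw => by simp only [hv w hw]⟩

lemma reach_perm (σ : Equiv.Perm (Fin 5)) :
    Reach G9 5 1 (lamCol (fun c => (c : ℕ))) (lamCol (fun c => ((σ c : Fin 5) : ℕ))) := by
  induction σ using Equiv.Perm.swap_induction_on with
  | one => exact ReflTransGen.refl
  | swap_mul f x y hxy ih =>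
    have h1 := reach_swap x y hxy
    let Λ : ℕ → ℕ := fun c => if h : c < 5 then ((Equiv.swap x y ⟨c, h⟩ : Fin 5) : ℕ) else 0
    have hΛ : ∀ c : Fin 5, Λ (c : ℕ) = ((Equiv.swap x y c : Fin 5) : ℕ) := by
      intro c
      simp only [Λ, c.2, dif_pos]
    have h2 := reach_relabel (m := 5) Λ (by
      intro c hc
      rw [show c = ((⟨c, hc⟩ : Fin 5) : ℕ) from rfl, hΛ]
      exact Fin.is_lt _) (by
      intro a b ha hb' hab
      rw [show a = ((⟨a, ha⟩ : Fin 5) : ℕ) from rfl, show b = ((⟨b, hb'⟩ : Fin 5) : ℕ) from rfl, hΛ,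
        hΛ] at hab
      have := (Equiv.swap x y).injective (Fin.val_injective hab)
      simpa using this) ih
    have e1 : (fun v => Λ (lamCol (fun c => (c : ℕ)) v))
        = lamCol (fun c => ((Equiv.swap x y c : Fin 5) : ℕ)) := by
      funext v
      simp only [lamCol, hΛ]
    have e2 : (fun v => Λ (lamCol (fun c => ((f c : Fin 5) : ℕ)) v))
        = lamCol (fun c => (((Equiv.swap x y * f) c : Fin 5) : ℕ)) := by
      funext v
      simp only [lamCol, hΛ, Equiv.Perm.mul_apply]
    rw [e1, e2] at h2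
    exact h1.trans h2

/-- all relabellings of a labelled standard colouring by a permutation of the classes -/
lemma reach_lam_perm {m : ℕ} (lam : Fin 5 → ℕ) (hlt : ∀ i, lam i < m)
    (hinj : Function.Injective lam) (σ : Equiv.Perm (Fin 5)) :
    Reach G9 m 1 (lamCol lam) (lamCol (fun c => lam (σ c))) := by
  let Λ : ℕ → ℕ := fun c => if h : c < 5 then lam ⟨c, h⟩ else 0
  have hΛ : ∀ c : Fin 5, Λ (c : ℕ) = lam c := by
    intro c
    simp only [Λ, c.2, dif_pos]
  have h2 := reach_relabel (m := m) Λ (by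
    intro c hc
    rw [show c = ((⟨c, hc⟩ : Fin 5) : ℕ) from rfl, hΛ]
    exact hlt _) (by
    intro a b ha hb' hab
    rw [show a = ((⟨a, ha⟩ : Fin 5) : ℕ) from rfl, show b = ((⟨b, hb'⟩ : Fin 5) : ℕ) from rfl, hΛ,
      hΛ] at hab
    have := hinj hab
    simpa using this) (reach_perm σ)
  have e1 : (fun v => Λ (lamCol (fun c => (c : ℕ)) v)) = lamCol lam := by
    funext v
    simp only [lamCol, hΛ]
  have e2 : (fun v => Λ (lamCol (fun c => ((σ c : Fin 5) : ℕ)) v))
      = lamCol (fun c => lam (σ c)) := by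
    funext v
    simp only [lamCol, hΛ]
  rwa [e1, e2] at h2

/-- changing some vertices to one colour -/
lemma recolour_const {V : Type*} [Fintype V] [DecidableEq V] {G : SimpleGraph V} {m : ℕ} (c : ℕ)
    (f' : V → ℕ) (hf' : IsCol G m 1 f') :
    ∀ (n : ℕ) (f : V → ℕ), IsCol G m 1 f → (∀ v, f v ≠ f' v → f' v = c) →
      (Finset.univ.filter (fun v => f v ≠ f' v)).card = n → Reach G m 1 f f' := by
  intro n
  induction n with
  | zero =>
    intro f _ _ hn
    have : f = f' := by
      funext v
      by_contra hne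
      have : v ∈ Finset.univ.filter (fun v => f v ≠ f' v) := by simpa using hne
      rw [Finset.card_eq_zero] at hn
      rw [hn] at this
      simp at this
    rw [this]
  | succ n ih =>
    intro f hf hc hn
    obtain ⟨v, hv⟩ := Finset.card_pos.1 (show 0 < (Finset.univ.filter (fun v => f v ≠ f' v)).card by omega)
    have hvne : f v ≠ f' v := by simpa using hv
    have hfc := (isCol_iff G m 1 one_pos f).1 hf
    have hfc' := (isCol_iff G m 1 one_pos f').1 hf'
    have hnb : ∀ w, G.Adj v w → f' v ≠ f w := by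
      intro w hvw he
      have h1 := hfc'.2 v w hvw
      by_cases hw : f w = f' w
      · unfold ok at h1; omega
      · have := hc w hw
        have := hc v hvne
        unfold ok at h1
        omega
    set h : V → ℕ := Function.update f v (f' v) with hh
    have hhv : h v = f' v := by simp [hh]
    have hhw : ∀ w, w ≠ v → h w = f w := fun w hw => by simp [hh, hw]
    have hcol : IsCol G m 1 h := by
      apply isCol_one
      · intro w
        by_cases hw : w = v
        · rw [hw, hhv]; exact hfc'.1 v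
        · rw [hhw w hw]; exact hfc.1 w
      · intro a b hab
        by_cases ha : a = v
        · have hb' : b ≠ v := by rintro rfl; exact hab.ne ha
          rw [ha, hhv, hhw b hb']
          exact hnb b (ha ▸ hab)
        · by_cases hb' : b = v
          · rw [hb', hhv, hhw a ha]
            exact (hnb a (hb' ▸ hab.symm)).symm
          · rw [hhw a ha, hhw b hb']
            have := hfc.2 a b hab
            unfold ok at this
            omega
    refine ReflTransGen.head ⟨hf, hcol, v, fun w hw => (hhw w hw).symm⟩ (ih h hcol ?_ ?_)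
    · intro w hw
      by_cases hwv : w = v
      · rw [hwv, hhv] at hw; exact absurd rfl hw
      · rw [hhw w hwv] at hw; exact hc w hw
    · have : Finset.univ.filter (fun w => h w ≠ f' w)
          = (Finset.univ.filter (fun w => f w ≠ f' w)).erase v := by
        ext w
        simp only [Finset.mem_filter, Finset.mem_univ, true_and, Finset.mem_erase]
        by_cases hw : w = v
        · rw [hw, hhv]; simp
        · rw [hhw w hw]; simp [hw]
      rw [this, Finset.card_erase_of_mem hv, hn]
      rfl

/-- labelled standard colourings are connected to the standard one -/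
lemma reach_std {m : ℕ} (hm : 5 ≤ m) : ∀ (n : ℕ) (lam : Fin 5 → ℕ), (∀ i, lam i < m) →
    Function.Injective lam → (Finset.univ.filter (fun i : Fin 5 => lam i ≠ i)).card = n →
    Reach G9 m 1 (lamCol lam) (lamCol (fun c => (c : ℕ))) := by
  intro n
  induction n using Nat.strong_induction_on with
  | _ n ih =>
    intro lam hlt hinj hn
    by_cases hall : ∀ i : Fin 5, lam i = i
    · have : lam = fun c : Fin 5 => (c : ℕ) := funext hall
      rw [this]
    · push Not at hall
      obtain ⟨i, hi⟩ := hall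
      by_cases hex : ∃ j : Fin 5, lam j = i
      · obtain ⟨j, hj⟩ := hex
        have hji : j ≠ i := by rintro rfl; exact hi hj
        have h1 := reach_lam_perm lam hlt hinj (Equiv.swap i j)
        refine h1.trans (ih _ ?_ _ (fun c => hlt _) (hinj.comp (Equiv.swap i j).injective) rfl)
        rw [← hn]
        apply Finset.card_lt_card
        rw [Finset.ssubset_iff_of_subset]
        · refine ⟨i, by simpa using hi, ?_⟩
          simp only [Finset.mem_filter, Finset.mem_univ, true_and, not_not,
            Equiv.swap_apply_left]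
          exact hj
        · intro c hc
          simp only [Finset.mem_filter, Finset.mem_univ, true_and] at hc ⊢
          by_cases hci : c = i
          · rw [hci]; exact hi
          · by_cases hcj : c = j
            · rw [hcj, hj]
              intro h
              exact hji (Fin.val_injective h).symm
            · rwa [Equiv.swap_apply_of_ne_of_ne hci hcj] at hc
      · push Not at hex
        -- recolour class `i` by the unused colour `i`
        let lam' : Fin 5 → ℕ := Function.update lam i i
        have hl'i : lam' i = i := by simp [lam']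
        have hl'j : ∀ j, j ≠ i → lam' j = lam j := fun j hj => by simp [lam', hj]
        have hlt' : ∀ j, lam' j < m := by
          intro j
          by_cases hj : j = i
          · rw [hj, hl'i]; omega
          · rw [hl'j j hj]; exact hlt j
        have hinj' : Function.Injective lam' := by
          intro a b hab
          by_cases ha : a = i
          · by_cases hb' : b = i
            · rw [ha, hb']
            · rw [ha, hl'i, hl'j b hb'] at hab
              exact absurd hab.symm (hex b)
          · by_cases hb' : b = i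
            · rw [hb', hl'i, hl'j a ha] at hab
              exact absurd hab (hex a)
            · rw [hl'j a ha, hl'j b hb'] at hab
              exact hinj hab
        have h1 : Reach G9 m 1 (lamCol lam) (lamCol lam') := by
          apply recolour_const (i : ℕ) _ (lamCol_isCol lam' hlt' hinj') _ _
            (lamCol_isCol lam hlt hinj) _ rfl
          intro v hv
          simp only [lamCol] at hv ⊢
          by_cases hvi : cl v = i
          · rw [hvi, hl'i]
          · rw [hl'j _ hvi] at hv; exact absurd rfl hv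
        refine h1.trans (ih _ ?_ lam' hlt' hinj' rfl)
        rw [← hn]
        apply Finset.card_lt_card
        rw [Finset.ssubset_iff_of_subset]
        · refine ⟨i, by simpa using hi, ?_⟩
          simp only [Finset.mem_filter, Finset.mem_univ, true_and, not_not]
          exact hl'i
        · intro c hc
          simp only [Finset.mem_filter, Finset.mem_univ, true_and] at hc ⊢
          by_cases hci : c = i
          · rw [hci]; exact hi
          · rwa [hl'j c hci] at hc

/-- every ordinary colouring with at least five colours is connected to the standard one -/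
lemma reach_base {m : ℕ} (hm : 5 ≤ m) (g : Fin 9 → ℕ) (hg : IsCol G9 m 1 g) :
    Reach G9 m 1 g (lamCol (fun c => (c : ℕ))) := by
  obtain ⟨g', h1, h2, h3⟩ := to_std _ g hg rfl
  obtain ⟨lam, h4, h5, h6⟩ := std_eq h2 h3
  rw [h4] at h1
  exact h1.trans (reach_std hm _ lam h5 h6 rfl)

lemma base_isCol {m : ℕ} (hm : 5 ≤ m) : IsCol G9 m 1 (lamCol (fun c => (c : ℕ))) :=
  lamCol_isCol _ (fun i => by omega) (fun a b h => Fin.val_injective h)

end Pool.Agent.Helper37.CircMix
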