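import Mathlib
import Pool.Agent.Helper37.CircMix.Paths

/-!
# The circular invariants of `G9`
-/

set_option autoImplicit false

namespace Pool.Agent.Helper37.CircMix

open Relation

/-- the standard colouring with five colours -/
def base : Fin 9 → ℕ := lamCol (fun c => (c : ℕ))

lemma base_lt (v : Fin 9) : base v < 5 := by
  unfold base lamCol; exact Fin.is_lt _

/-! ### mixing above `5` -/

lemma rot_phi {k q : ℕ} (x y : ℕ) (g : Fin 9 → ℕ) :
    rot k x (phi k q y g) = phi k q ((x + y) % k) g := by
  funext v
  simp only [rot, phi, Nat.add_mod_mod, Nat.mod_add_mod]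
  congr 1
  ring

lemma shift_one {k q : ℕ} (hq : 0 < q) (hk : 5 * q < k) :
    Reach G9 k q (phi k q 0 base) (phi k q 1 base) := by
  have h0 : IsCol G9 k q (phi k q 0 base) :=
    phi_isCol (m := 5) hq hk.le 0 (by omega) base (base_isCol le_rfl)
  have h1 : IsCol G9 k q (phi k q 1 base) :=
    phi_isCol (m := 5) hq hk.le 1 (by omega) base (base_isCol le_rfl)
  have hval : ∀ v, q * base v ≤ 4 * q := by
    intro v
    have := base_lt v
    calc q * base v ≤ q * 4 := Nat.mul_le_mul_left q (by omega)
      _ = 4 * q := by ring
  have e0 : ∀ v, phi k q 0 base v = q * base v := by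
    intro v
    simp only [phi, zero_add]
    exact Nat.mod_eq_of_lt (by have := hval v; omega)
  have e1 : ∀ v, phi k q 1 base v = 1 + q * base v := by
    intro v
    simp only [phi]
    exact Nat.mod_eq_of_lt (by have := hval v; omega)
  apply raise' hq _ _ h0 h1
  · intro v; rw [e0, e1]; omega
  · intro v _
    rw [e1]
    have := hval v
    omega

lemma shift_all {k q : ℕ} (hq : 0 < q) (hk : 5 * q < k) (x : ℕ) (hx : x < k) :
    Reach G9 k q (phi k q 0 base) (phi k q x base) := by
  induction x with
  | zero => exact ReflTransGen.refl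
  | succ x ih =>
    have h1 := ih (by omega)
    have h2 := rot_reach hq x (by omega) (shift_one hq hk)
    rw [rot_phi, rot_phi, add_zero, Nat.mod_eq_of_lt (by omega : x < k), Nat.mod_eq_of_lt hx] at h2
    exact h1.trans h2

/-- `G9` is `(k, q)`-mixing whenever `k / q > 5` -/
theorem mixing_of_lt (k q : ℕ) (hq : 0 < q) (hk : 5 * q < k) : Mixing G9 k q := by
  have key : ∀ f, IsCol G9 k q f → Reach G9 k q f (phi k q 0 base) := by
    intro f hf
    have hm : 5 ≤ k / q := (Nat.le_div_iff_mul_le hq).2 hk.le
    have hm1 : k / q * q ≤ k := Nat.div_mul_le_self k q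
    have hm2 : k < (k / q + 1) * q := by
      have := Nat.lt_mul_div_succ k hq
      rw [mul_comm]; exact this
    obtain ⟨x, g, hx, hg, hr⟩ := reduce (m := k / q) hq (by omega) hm1 hm2
      (by simp; omega) f hf
    have h1 := phi_reach hq hm1 x hx (reach_base hm g hg)
    exact (hr.trans h1).trans (shift_all hq hk x hx).symm
  intro f g hf hg
  exact (key f hf).trans (key g hg).symm

/-! ### directed cycles -/

/-- rows of the adjacency matrix of `G9` -/
def rows : List ℕ := [124, 504, 497, 227, 455, 399, 287, 318, 246]

/-- adjacency of `G9` -/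
def adjN (u v : ℕ) : Bool := (rows.getD u 0).testBit v

lemma adjN_spec : ∀ u v : Fin 9, adjN u v = true ↔ (u ≠ v ∧ hb u v = false) := by decide +kernel

/-- colour classes -/
def cls (l : List ℕ) (c : ℕ) : List ℕ := (List.range 9).filter (fun v => l.getD v 9 == c)

/-- a directed `5`-cycle through all colours -/
def cyc (l : List ℕ) : Bool :=
  (cls l 0).any (fun a => (cls l 1).any (fun b => adjN a b &&
    (cls l 2).any (fun c => adjN b c && (cls l 3).any (fun d => adjN c d &&
      (cls l 4).any (fun e => adjN d e && adjN e a)))))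

/-- compatibility of a new colour -/
def compat : List ℕ → ℕ → ℕ → ℕ → Bool
  | [], _, _, _ => true
  | x :: xs, i, r, c => !(r.testBit i && x == c) && compat xs (i + 1) r c

/-- enumeration of the proper colourings -/
def en : ℕ → List ℕ → Bool
  | 0, l => cyc l
  | n + 1, l => (List.range 5).all (fun c => !(compat l 0 (rows.getD l.length 0) c) || en n (l ++ [c]))

set_option maxRecDepth 100000 in
lemma en_all : en 9 [] = true := by decide +kernel

end Pool.Agent.Helper37.CircMix
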