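import Mathlib
import Pool.Agent.Helper37.CircMix.Circ

/-!
# The circular chromatic number and the circular mixing threshold of `G9` are both `5`
-/

set_option autoImplicit false

namespace Pool.Agent.Helper37.CircMix

open Relation

/-! ### every proper `5`-colouring has a directed `5`-cycle -/

lemma compat_of (r c : ℕ) : ∀ (l : List ℕ) (i : ℕ),
    (∀ j (hj : j < l.length), r.testBit (i + j) = true → l[j] ≠ c) → compat l i r c = true := by
  intro l
  induction l with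
  | nil => intro i _; rfl
  | cons x xs ih =>
    intro i h
    unfold compat
    rw [Bool.and_eq_true]
    refine ⟨?_, ?_⟩
    · have h0 := h 0 (by simp)
      by_cases hb : r.testBit i = true
      · have h1 := h0 (by simpa using hb)
        simp only [List.getElem_cons_zero] at h1
        simp [hb, h1]
      · simp [hb]
    · apply ih
      intro j hj hbit
      have := h (j + 1) (by simpa using hj) (by rw [show i + (j + 1) = i + 1 + j by ring]; exact hbit)
      simpa using this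

lemma en_sound (g : Fin 9 → ℕ) (hlt : ∀ v, g v < 5)
    (hp : ∀ u v : Fin 9, u ≠ v → hb u v = false → g u ≠ g v) :
    ∀ n, n ≤ 9 → en n ((List.ofFn g).take (9 - n)) = true → cyc (List.ofFn g) = true := by
  intro n
  induction n with
  | zero =>
    intro _ h
    have : (List.ofFn g).take (9 - 0) = List.ofFn g := List.take_of_length_le (by simp)
    rw [this] at h
    exact h
  | succ n ih =>
    intro hn h
    apply ih (by omega)
    unfold en at h
    rw [List.all_eq_true] at h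
    have hlen : ((List.ofFn g).take (9 - (n + 1))).length = 8 - n := by
      rw [List.length_take, List.length_ofFn]; omega
    have h1 := h (g ⟨8 - n, by omega⟩) (List.mem_range.2 (hlt _))
    have hc : compat ((List.ofFn g).take (9 - (n + 1))) 0
        (rows.getD ((List.ofFn g).take (9 - (n + 1))).length 0) (g ⟨8 - n, by omega⟩) = true := by
      apply compat_of
      intro j hj hbit
      rw [hlen] at hj hbit
      rw [zero_add] at hbit
      rw [List.getElem_take, List.getElem_ofFn]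
      have h2 := (adjN_spec ⟨8 - n, by omega⟩ ⟨j, by omega⟩).1 (by
        show (rows.getD (8 - n) 0).testBit j = true
        exact hbit)
      exact (hp _ _ h2.1 h2.2).symm
    rw [hc] at h1
    simp only [Bool.not_true, Bool.false_or] at h1
    have h3 : (List.ofFn g).take (9 - n) =
        (List.ofFn g).take (9 - (n + 1)) ++ [g ⟨8 - n, by omega⟩] := by
      rw [show 9 - n = (9 - (n + 1)) + 1 by omega, List.take_succ_eq_append_getElem (by simp; omega),
        List.getElem_ofFn]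
      congr 3
      exact Fin.ext (by simp)
    rw [h3]
    exact h1

lemma mem_cls {g : Fin 9 → ℕ} {c x : ℕ} (hx : x ∈ cls (List.ofFn g) c) :
    ∃ h : x < 9, g ⟨x, h⟩ = c := by
  unfold cls at hx
  rw [List.mem_filter, List.mem_range] at hx
  obtain ⟨h1, h2⟩ := hx
  refine ⟨h1, ?_⟩
  rw [beq_iff_eq, List.getD_eq_getElem _ _ (by simpa using h1), List.getElem_ofFn] at h2
  exact h2

/-- every proper `5`-colouring of `G9` has a `5`-cycle with colours `0, 1, 2, 3, 4` in this order -/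
lemma exists_cyc (g : Fin 9 → ℕ) (hlt : ∀ v, g v < 5)
    (hp : ∀ u v : Fin 9, G9.Adj u v → g u ≠ g v) :
    ∃ a b c d e : Fin 9, (g a = 0 ∧ g b = 1 ∧ g c = 2 ∧ g d = 3 ∧ g e = 4) ∧
      G9.Adj a b ∧ G9.Adj b c ∧ G9.Adj c d ∧ G9.Adj d e ∧ G9.Adj e a := by
  have h := en_sound g hlt (fun u v h1 h2 => hp u v ⟨h1, h2⟩) 9 le_rfl (by
    rw [show 9 - 9 = 0 by norm_num, List.take_zero]; exact en_all)
  unfold cyc at h
  simp only [List.any_eq_true, Bool.and_eq_true] at h
  obtain ⟨a, ha, b, hb', hab, c, hc, hbc, d, hd, hcd, e, he, hde, hea⟩ := h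
  obtain ⟨ha1, ha2⟩ := mem_cls ha
  obtain ⟨hb1, hb2⟩ := mem_cls hb'
  obtain ⟨hc1, hc2⟩ := mem_cls hc
  obtain ⟨hd1, hd2⟩ := mem_cls hd
  obtain ⟨he1, he2⟩ := mem_cls he
  exact ⟨⟨a, ha1⟩, ⟨b, hb1⟩, ⟨c, hc1⟩, ⟨d, hd1⟩, ⟨e, he1⟩, ⟨ha2, hb2, hc2, hd2, he2⟩,
    (adjN_spec ⟨a, ha1⟩ ⟨b, hb1⟩).1 hab, (adjN_spec ⟨b, hb1⟩ ⟨c, hc1⟩).1 hbc,
    (adjN_spec ⟨c, hc1⟩ ⟨d, hd1⟩).1 hcd, (adjN_spec ⟨d, hd1⟩ ⟨e, he1⟩).1 hde,
    (adjN_spec ⟨e, he1⟩ ⟨a, ha1⟩).1 hea⟩

/-- the same for `(k, q)`-colourings with `k ≤ 5 q` -/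
lemma exists_cyc' {k q : ℕ} (hq : 0 < q) (hk : k ≤ 5 * q) (f : Fin 9 → ℕ) (hf : IsCol G9 k q f) :
    ∃ a b c d e : Fin 9, (f a < q ∧ q ≤ f b ∧ f b < 2 * q ∧ 2 * q ≤ f c ∧ f c < 3 * q ∧
      3 * q ≤ f d ∧ f d < 4 * q ∧ 4 * q ≤ f e) ∧
      f a + q ≤ f b ∧ f b + q ≤ f c ∧ f c + q ≤ f d ∧ f d + q ≤ f e ∧ f e + q ≤ k + f a ∧
      G9.Adj a b ∧ G9.Adj b c ∧ G9.Adj c d ∧ G9.Adj d e ∧ G9.Adj e a := by
  have hf' := (isCol_iff G9 k q hq f).1 hf
  have hd1 : ∀ v, q * (f v / q) ≤ f v := fun v => Nat.mul_div_le _ _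
  have hd2 : ∀ v, f v < q * (f v / q) + q := by
    intro v
    have := Nat.lt_mul_div_succ (f v) hq
    rw [Nat.mul_succ] at this
    exact this
  have h1 : ∀ v, f v / q < 5 := by
    intro v
    exact (Nat.div_lt_iff_lt_mul hq).2 (lt_of_lt_of_le (hf'.1 v) hk)
  obtain ⟨a, b, c, d, e, ⟨ha, hb', hc, hd, he⟩, hab, hbc, hcd, hde, hea⟩ :=
    exists_cyc (fun v => f v / q) h1 (by
      intro u v huv heq
      have h2 := hf'.2 u v huv
      have h3 := hd1 u
      have h4 := hd1 v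
      have h5 := hd2 u
      have h6 := hd2 v
      rw [heq] at h3 h5
      unfold ok at h2
      omega)
  have a1 := hd1 a
  have a2 := hd2 a
  have b1 := hd1 b
  have b2 := hd2 b
  have c1 := hd1 c
  have c2 := hd2 c
  have d1 := hd1 d
  have d2 := hd2 d
  have e1 := hd1 e
  have e2 := hd2 e
  rw [ha] at a1 a2
  rw [hb'] at b1 b2
  rw [hc] at c1 c2
  rw [hd] at d1 d2
  rw [he] at e1 e2
  have k1 := hf'.2 a b hab
  have k2 := hf'.2 b c hbc
  have k3 := hf'.2 c d hcd
  have k4 := hf'.2 d e hde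
  have k5 := hf'.2 e a hea
  unfold ok at k1 k2 k3 k4 k5
  refine ⟨a, b, c, d, e, ⟨by omega, by omega, by omega, by omega, by omega, by omega, by omega,
    by omega⟩, by omega, by omega, by omega, by omega, by omega, hab, hbc, hcd, hde, hea⟩

/-- no `(k, q)`-colouring below `5` -/
theorem le_of_isCol {k q : ℕ} (hq : 0 < q) (f : Fin 9 → ℕ) (hf : IsCol G9 k q f) :
    5 * q ≤ k := by
  by_contra hcon
  obtain ⟨a, b, c, d, e, _, h⟩ := exists_cyc' hq (by omega) f hf
  omega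

theorem circularChromaticNumber_G9 : circularChromaticNumber G9 = 5 := by
  unfold circularChromaticNumber
  have h : IsLeast {x : ℝ | ∃ k q : ℕ, 0 < k ∧ 0 < q ∧ x = (k : ℝ) / (q : ℝ) ∧
      ∃ f, IsCol G9 k q f} 5 := by
    constructor
    · exact ⟨5, 1, by norm_num, by norm_num, by norm_num, base, base_isCol le_rfl⟩
    · rintro x ⟨k, q, _, hq, rfl, f, hf⟩
      have h1 := le_of_isCol hq f hf
      rw [le_div_iff₀ (by exact_mod_cast hq)]
      exact_mod_cast h1
  exact h.csInf_eq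

/-! ### `G9` is not `(10, 2)`-mixing -/

/-- a `5`-cycle with the colours `t, t + 2, t + 4, t + 6, t + 8` -/
def Has (t : ℕ) (f : Fin 9 → ℕ) : Prop :=
  ∃ A : Fin 5 → Fin 9, (∀ i, f (A i) = t + 2 * (i : ℕ)) ∧ ∀ i, G9.Adj (A i) (A (i + 1))

lemma has_or (f : Fin 9 → ℕ) (hf : IsCol G9 10 2 f) : Has 0 f ∨ Has 1 f := by
  obtain ⟨a, b, c, d, e, h1, h2, h3, h4, h5, h6, hab, hbc, hcd, hde, hea⟩ :=
    exists_cyc' (by norm_num) (by norm_num) f hf
  have key : ∀ t, f a = t → Has t f := by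
    intro t ht
    refine ⟨![a, b, c, d, e], ?_, ?_⟩
    · intro i
      fin_cases i <;> simp <;> omega
    · intro i
      fin_cases i
      · exact hab
      · exact hbc
      · exact hcd
      · exact hde
      · exact hea
  have : f a = 0 ∨ f a = 1 := by omega
  rcases this with h | h
  · exact Or.inl (key 0 h)
  · exact Or.inr (key 1 h)

/-- enumeration of the paths of the theta graph (in reverse), final check: not closed -/
def pc : ℕ → List (Fin 9) → Bool
  | 0, l => !(hb (l.headD 0) (l.getLastD 0))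
  | n + 1, l => (List.finRange 9).all
      (fun x => !(hb (l.headD 0) x) || (l.contains x || pc n (x :: l)))

set_option maxRecDepth 100000 in
lemma pc_all : ∀ p0 : Fin 9, pc 8 [p0] = true := by decide +kernel

lemma pc_step {n : ℕ} {l : List (Fin 9)} (h : pc (n + 1) l = true) (x : Fin 9)
    (h1 : hb (l.headD 0) x = true) (h2 : x ∉ l) : pc n (x :: l) = true := by
  unfold pc at h
  rw [List.all_eq_true] at h
  have h3 := h x (List.mem_finRange x)
  rw [h1] at h3
  simpa [h2] using h3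

/-- the theta graph has no Hamiltonian cycle -/
lemma no_ham (p0 p1 p2 p3 p4 p5 p6 p7 p8 : Fin 9) (h0 : hb p0 p1 = true) (h1 : hb p1 p2 = true)
    (h2 : hb p2 p3 = true) (h3 : hb p3 p4 = true) (h4 : hb p4 p5 = true) (h5 : hb p5 p6 = true)
    (h6 : hb p6 p7 = true) (h7 : hb p7 p8 = true)
    (hn : [p8, p7, p6, p5, p4, p3, p2, p1, p0].Nodup) : hb p8 p0 = false := by
  simp only [List.nodup_cons] at hn
  obtain ⟨n8, n7, n6, n5, n4, n3, n2, n1, _⟩ := hn
  have h := pc_step (pc_step (pc_step (pc_step (pc_step (pc_step (pc_step (pc_step (pc_all p0)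
    p1 h0 n1) p2 h1 n2) p3 h2 n3) p4 h3 n4) p5 h4 n5) p6 h5 n6) p7 h6 n7) p8 h7 n8
  simpa [pc] using h

lemma deg_le : ∀ v : Fin 9, (Finset.univ.filter (fun w => hb v w = true)).card ≤ 3 := by
  decide +kernel

lemma deg_four (v a b c d : Fin 9) (ha : hb v a = true) (hb' : hb v b = true)
    (hc : hb v c = true) (hd : hb v d = true) (hn : [a, b, c, d].Nodup) : False := by
  have h1 : ({a, b, c, d} : Finset (Fin 9)).card = 4 := by
    have h2 : [a, b, c, d].toFinset = {a, b, c, d} := by simp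
    rw [← h2, List.toFinset_card_of_nodup hn]
    rfl
  have h2 : ({a, b, c, d} : Finset (Fin 9)) ⊆ Finset.univ.filter (fun w => hb v w = true) := by
    intro x hx
    simp only [Finset.mem_insert, Finset.mem_singleton] at hx
    rw [Finset.mem_filter]
    refine ⟨Finset.mem_univ _, ?_⟩
    rcases hx with rfl | rfl | rfl | rfl <;> assumption
  have h3 := Finset.card_le_card h2
  have h4 := deg_le v
  omega

/-- the pairs `(A j, B j)` and `(B j, A (j + 1))` -/
lemma hb_pair {f : Fin 9 → ℕ} (hf : IsCol G9 10 2 f) (x y : Fin 9) (j i : Fin 5)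
    (hx : f x = 2 * (i : ℕ)) (hy : f y = 1 + 2 * (j : ℕ)) (hij : i = j ∨ i = j + 1) :
    hb x y = true := by
  by_contra hne
  have hxy : x ≠ y := by
    rintro rfl
    omega
  have h := ((isCol_iff G9 10 2 (by norm_num) f).1 hf).2 x y ⟨hxy, by simpa using hne⟩
  rw [hx, hy] at h
  unfold ok at h
  rcases hij with rfl | rfl
  · omega
  · have key : ∀ j : Fin 5, ¬ ((2 * ((j + 1 : Fin 5) : ℕ) + 2 ≤ 1 + 2 * (j : ℕ) ∧
        1 + 2 * (j : ℕ) + 2 ≤ 10 + 2 * ((j + 1 : Fin 5) : ℕ)) ∨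
        (1 + 2 * (j : ℕ) + 2 ≤ 2 * ((j + 1 : Fin 5) : ℕ) ∧
        2 * ((j + 1 : Fin 5) : ℕ) + 2 ≤ 10 + (1 + 2 * (j : ℕ)))) := by decide
    exact key j h

lemma ne1 : ∀ j : Fin 5, j + 1 ≠ j := by decide
lemma ne2 : ∀ j : Fin 5, j + 1 + 1 ≠ j := by decide
lemma ne3 : ∀ j : Fin 5, j + 1 + 1 + 1 ≠ j := by decide
lemma ne4 : ∀ j : Fin 5, j + 1 + 1 + 1 + 1 ≠ j := by decide
lemma eq5 : ∀ j : Fin 5, j + 1 + 1 + 1 + 1 + 1 = j := by decide

lemma nd9 : ∀ j : Fin 5, [2 * ((j + 1 + 1 + 1 + 1 + 1 : Fin 5) : ℕ),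
    1 + 2 * ((j + 1 + 1 + 1 + 1 : Fin 5) : ℕ), 2 * ((j + 1 + 1 + 1 + 1 : Fin 5) : ℕ),
    1 + 2 * ((j + 1 + 1 + 1 : Fin 5) : ℕ), 2 * ((j + 1 + 1 + 1 : Fin 5) : ℕ),
    1 + 2 * ((j + 1 + 1 : Fin 5) : ℕ), 2 * ((j + 1 + 1 : Fin 5) : ℕ),
    1 + 2 * ((j + 1 : Fin 5) : ℕ), 2 * ((j + 1 : Fin 5) : ℕ)].Nodup := by decide

lemma nd4 : ∀ i j : Fin 5, [2 * (j : ℕ), 2 * ((j + 1 : Fin 5) : ℕ), 1 + 2 * (i : ℕ),
    1 + 2 * ((i + 1 + 1 + 1 + 1 : Fin 5) : ℕ)].Nodup := by decide

lemma even_step {f f' : Fin 9 → ℕ} (hst : Step G9 10 2 f f') (hE : Has 0 f) : Has 0 f' := by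
  obtain ⟨hf, hf', v, hv⟩ := hst
  obtain ⟨A, hA, hAadj⟩ := hE
  rcases has_or f' hf' with h | ⟨B, hB, _⟩
  · exact h
  by_contra hno
  have hA' : ∀ i, f (A i) = 2 * (i : ℕ) := by
    intro i
    have := hA i
    omega
  have hvA : ∃ i0, A i0 = v := by
    by_contra hcon
    push Not at hcon
    exact hno ⟨A, fun i => by rw [← hv _ (hcon i)]; exact hA i, hAadj⟩
  have hvB : ∃ j0, B j0 = v := by
    by_contra hcon
    push Not at hcon
    have hB' : ∀ j, f (B j) = 1 + 2 * (j : ℕ) := fun j => by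
      rw [hv _ (hcon j)]; exact hB j
    have hinj : Function.Injective (Sum.elim A B) := by
      rintro (i | i) (j | j) hij
      · simp only [Sum.elim_inl] at hij
        have h1 := hA' i
        rw [hij, hA' j] at h1
        congr 1
        exact Fin.ext (by omega)
      · simp only [Sum.elim_inl, Sum.elim_inr] at hij
        have h1 := hA' i
        rw [hij, hB' j] at h1
        omega
      · simp only [Sum.elim_inl, Sum.elim_inr] at hij
        have h1 := hB' i
        rw [hij, hA' j] at h1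
        omega
      · simp only [Sum.elim_inr] at hij
        have h1 := hB' i
        rw [hij, hB' j] at h1
        congr 1
        exact Fin.ext (by omega)
    have := Fintype.card_le_of_injective _ hinj
    simp at this
  obtain ⟨i0, hi0⟩ := hvA
  obtain ⟨j0, hj0⟩ := hvB
  have hBne : ∀ j, j ≠ j0 → f (B j) = 1 + 2 * (j : ℕ) := by
    intro j hj
    rw [hv]
    · exact hB j
    · intro h
      have h1 := hB j
      have h2 := hB j0
      rw [h] at h1
      rw [hj0] at h2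
      exact hj (Fin.ext (by omega))
  have hAne : ∀ i, i ≠ i0 → f' (A i) = 2 * (i : ℕ) := by
    intro i hi
    rw [← hv]
    · exact hA' i
    · intro h
      have h1 := hA' i
      have h2 := hA' i0
      rw [h] at h1
      rw [hi0] at h2
      exact hi (Fin.ext (by omega))
  have hAB : ∀ j, j ≠ j0 → hb (A j) (B j) = true := fun j hj =>
    hb_pair hf _ _ j j (hA' j) (hBne j hj) (Or.inl rfl)
  have hBA : ∀ j, j ≠ j0 → hb (B j) (A (j + 1)) = true := fun j hj => by
    rw [hb_symm]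
    exact hb_pair hf _ _ j (j + 1) (hA' _) (hBne j hj) (Or.inr rfl)
  have hv1 : j0 ≠ i0 → hb (A j0) v = true := fun h =>
    hb_pair hf' _ _ j0 j0 (hAne j0 h) (by rw [← hj0]; exact hB j0) (Or.inl rfl)
  have hv2 : j0 + 1 ≠ i0 → hb (A (j0 + 1)) v = true := fun h =>
    hb_pair hf' _ _ j0 (j0 + 1) (hAne _ h) (by rw [← hj0]; exact hB j0) (Or.inr rfl)
  have e1 := ne1 j0
  have e2 := ne2 j0
  have e3 := ne3 j0
  have e4 := ne4 j0
  have e5 := eq5 j0
  have hham : hb (A (j0 + 1 + 1 + 1 + 1 + 1)) (A (j0 + 1)) = false := by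
    apply no_ham (A (j0 + 1)) (B (j0 + 1)) (A (j0 + 1 + 1)) (B (j0 + 1 + 1)) (A (j0 + 1 + 1 + 1))
      (B (j0 + 1 + 1 + 1)) (A (j0 + 1 + 1 + 1 + 1)) (B (j0 + 1 + 1 + 1 + 1))
      (A (j0 + 1 + 1 + 1 + 1 + 1)) (hAB _ e1) (hBA _ e1) (hAB _ e2) (hBA _ e2) (hAB _ e3)
      (hBA _ e3) (hAB _ e4) (hBA _ e4)
    apply List.Nodup.of_map f
    simp only [List.map_cons, List.map_nil, hA', hBne _ e1, hBne _ e2, hBne _ e3, hBne _ e4]
    exact nd9 j0
  rw [e5] at hham
  by_cases c1 : j0 = i0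
  · have h1 := hv2 (by rw [← c1]; exact e1)
    rw [← hi0, ← c1, hb_symm, hham] at h1
    exact absurd h1 (by simp)
  · by_cases c2 : j0 + 1 = i0
    · have h1 := hv1 c1
      rw [← hi0, ← c2, hham] at h1
      exact absurd h1 (by simp)
    · have h1 := hv1 c1
      have h2 := hv2 c2
      have h3 := hAB i0 (fun h => c1 h.symm)
      have c3 : i0 + 1 + 1 + 1 + 1 ≠ j0 := by
        intro h
        rw [← h, eq5] at c2
        exact c2 rfl
      have h4 := hBA _ c3
      rw [eq5] at h4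
      rw [hi0] at h3 h4
      rw [hb_symm] at h1 h2 h4
      apply deg_four v _ _ _ _ h1 h2 h3 h4
      apply List.Nodup.of_map f
      simp only [List.map_cons, List.map_nil, hA', hBne _ c3, hBne _ (fun h => c1 h.symm)]
      exact nd4 i0 j0

theorem not_mixing : ¬ Mixing G9 10 2 := by
  intro hm
  have h0 : IsCol G9 10 2 (phi 10 2 0 base) :=
    phi_isCol (m := 5) (by norm_num) (by norm_num) 0 (by norm_num) base (base_isCol le_rfl)
  have h1 : IsCol G9 10 2 (phi 10 2 1 base) :=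
    phi_isCol (m := 5) (by norm_num) (by norm_num) 1 (by norm_num) base (base_isCol le_rfl)
  have hE : Has 0 (phi 10 2 0 base) := by
    refine ⟨![1, 3, 5, 7, 8], by decide, ?_⟩
    intro i
    show _ ≠ _ ∧ _ = _
    revert i
    decide
  have hO : ¬ Has 0 (phi 10 2 1 base) := by
    rintro ⟨A, hA, _⟩
    have h2 := hA 0
    have h3 : ∀ v, phi 10 2 1 base v ≠ 0 + 2 * ((0 : Fin 5) : ℕ) := by decide
    exact h3 _ h2
  have key : ∀ f, ReflTransGen (Step G9 10 2) (phi 10 2 0 base) f → Has 0 f := by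
    intro f hf
    induction hf with
    | refl => exact hE
    | tail _ hst ih => exact even_step hst ih
  exact hO (key _ (hm _ _ h0 h1))

/-! ### the thresholds -/

theorem circularMixingThreshold_G9 : circularMixingThreshold G9 = 5 := by
  unfold circularMixingThreshold
  have h : IsGLB {x : ℝ | ∃ l : ℚ, x = (l : ℝ) ∧
      ∀ k q : ℕ, 0 < k → 0 < q → (l : ℝ) ≤ (k : ℝ) / (q : ℝ) → Mixing G9 k q} 5 := by
    constructor
    · rintro x ⟨l, rfl, hl⟩
      by_contra hcon
      push Not at hcon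
      exact not_mixing (hl 10 2 (by norm_num) (by norm_num) (by norm_num; exact_mod_cast hcon.le))
    · intro b hb
      by_contra hcon
      push Not at hcon
      obtain ⟨l, hl1, hl2⟩ := exists_rat_btwn hcon
      have h1 := hb ⟨l, rfl, fun k q _ hq hkq => mixing_of_lt k q hq (by
        have hq' : (0 : ℝ) < q := by exact_mod_cast hq
        have h2 : (5 : ℝ) < (k : ℝ) / q := lt_of_lt_of_le hl1 hkq
        rw [lt_div_iff₀ hq'] at h2
        exact_mod_cast h2)⟩
      exact absurd h1 (not_le.2 hl2)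
  refine h.csInf_eq ⟨6, 6, by norm_num, fun k q _ hq hkq => mixing_of_lt k q hq ?_⟩
  have hq' : (0 : ℝ) < q := by exact_mod_cast hq
  have h2 : (5 : ℝ) < (k : ℝ) / q := lt_of_lt_of_le (by norm_num) hkq
  rw [lt_div_iff₀ hq'] at h2
  exact_mod_cast h2

theorem not_two_colorable : ¬ G9.Colorable 2 := by
  rintro ⟨c⟩
  have h02 : c 0 ≠ c 2 := c.valid (show (0 : Fin 9) ≠ 2 ∧ hb 0 2 = false by decide)
  have h04 : c 0 ≠ c 4 := c.valid (show (0 : Fin 9) ≠ 4 ∧ hb 0 4 = false by decide)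
  have h24 : c 2 ≠ c 4 := c.valid (show (2 : Fin 9) ≠ 4 ∧ hb 2 4 = false by decide)
  omega

end Pool.Agent.Helper37.CircMix
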